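import Pool.Agent.Zk40.D.En

/-!
Dilated sets in Waring's problem: the energy for almost all dilations.
-/

namespace Pool.Agent.Zk40.D

open Finset Filter Topology MeasureTheory

open Classical in
/-- the positive elements of `B` up to `N` -/
noncomputable def Bf (B : Set ℕ) (N : ℕ) : Finset ℕ := (Icc 1 N).filter (· ∈ B)

lemma Bf_le (B : Set ℕ) (N : ℕ) : ∀ b ∈ Bf B N, b ≤ N := by
  classical
  intro b hb
  exact (mem_Icc.1 (mem_filter.1 hb).1).2

lemma log_le (a b δ : ℝ) (hδ : 0 < δ) : ∀ᶠ x : ℝ in atTop, a + b * Real.log x ≤ x ^ δ := by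
  have h3 := (isLittleO_log_rpow_atTop (show 0 < δ by positivity)).bound (show (0 : ℝ) < 1 / (2 * (|b| + 1)) by positivity)
  have h4 : ∀ᶠ x : ℝ in atTop, 2 * a ≤ x ^ δ := (tendsto_rpow_atTop hδ).eventually_ge_atTop _
  filter_upwards [h3, h4, eventually_ge_atTop (1 : ℝ)] with x a1 a2 a3
  have hl : 0 ≤ Real.log x := Real.log_nonneg a3
  rw [Real.norm_of_nonneg hl, Real.norm_of_nonneg (by positivity)] at a1
  have h5 : b * Real.log x ≤ (|b| + 1) * Real.log x := by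
    apply mul_le_mul_of_nonneg_right _ hl
    linarith [le_abs_self b]
  have h6 : (|b| + 1) * Real.log x ≤ (|b| + 1) * (1 / (2 * (|b| + 1)) * x ^ δ) :=
    mul_le_mul_of_nonneg_left a1 (by positivity)
  have h7 : (|b| + 1) * (1 / (2 * (|b| + 1)) * x ^ δ) = x ^ δ / 2 := by
    field_simp
  linarith

lemma two_tend : Tendsto (fun j : ℕ => ((2 ^ j : ℕ) : ℝ)) atTop atTop := by
  push_cast
  exact tendsto_pow_atTop_atTop_of_one_lt (by norm_num)

lemma two_tendN : Tendsto (fun j : ℕ => (2 ^ j : ℕ)) atTop atTop :=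
  tendsto_pow_atTop_atTop_of_one_lt (by norm_num)

lemma two_pow_tend (d : ℕ) : Tendsto (fun j : ℕ => ((2 ^ j) ^ (d + 1) : ℕ)) atTop atTop :=
  (tendsto_pow_atTop (by omega)).comp two_tendN

lemma two_rpow (s : ℝ) (j : ℕ) : ((2 : ℝ) ^ s) ^ j = ((2 ^ j : ℕ) : ℝ) ^ s := by
  push_cast
  rw [← Real.rpow_natCast, ← Real.rpow_natCast, ← Real.rpow_mul (by norm_num), ← Real.rpow_mul (by norm_num)]
  congr 1
  ring

theorem ae_en (d : ℕ) (u : ℕ) (C c : ℝ) (hc : 0 < c) (S : ℕ → Finset ℕ) (g : ℕ → ℕ)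
    (hS : ∀ᶠ P : ℕ in atTop, Sep d (u + 1) C c P (S P) (g P)) (B : Set ℕ) (γ : ℝ)
    (hB : ∀ᶠ N : ℕ in atTop, (N : ℝ) ^ γ ≤ ((Bf B N).card : ℝ)) (hγ : (1 - 1 / ((d : ℝ) + 1)) ^ (u + 1) < γ)
    (L : ℝ) (hL : 0 ≤ L) (τ : ℝ) (hτ : 0 < τ) :
    ∀ᵐ x : ℝ, x ∈ Set.Icc 0 L → ∀ᶠ j : ℕ in atTop, EnD (S (2 ^ j)) (Bf B ((2 ^ j) ^ (d + 1))) x ≤
      (((S (2 ^ j)).card : ℝ) * (Bf B ((2 ^ j) ^ (d + 1))).card) ^ 2 * ((2 ^ j : ℕ) : ℝ) ^ (-((d : ℝ) + 1) + τ) := by
  obtain ⟨κ', hκ'⟩ : ∃ κ' : ℝ, κ' = (1 - 1 / ((d : ℝ) + 1)) ^ (u + 1) := ⟨_, rfl⟩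
  rw [← hκ'] at hγ
  obtain ⟨δ, hδ⟩ : ∃ δ : ℝ, δ = ((d : ℝ) + 1) * (γ - κ') := ⟨_, rfl⟩
  have hδ0 : 0 < δ := by rw [hδ]; exact mul_pos (by positivity) (by linarith)
  have ev1 := two_tend.eventually (log_le C (C * ((d : ℝ) + 1)) δ hδ0)
  have ev2 := two_tendN.eventually hS
  have ev3 := (two_pow_tend d).eventually hB
  have h1 := bc (fun j => {x | x ∈ Set.Icc 0 L ∧ (((S (2 ^ j)).card : ℝ) * (Bf B ((2 ^ j) ^ (d + 1))).card) ^ 2 *
    ((2 ^ j : ℕ) : ℝ) ^ (-((d : ℝ) + 1) + τ) ≤ EnD (S (2 ^ j)) (Bf B ((2 ^ j) ^ (d + 1))) x})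
    ((8 * L + 12) / c) ((2 : ℝ) ^ (-τ)) (by positivity) (Real.rpow_lt_one_of_one_lt_of_neg (by norm_num) (by linarith))
    (by positivity) (by
      filter_upwards [ev1, ev2, ev3] with j e1 e2 e3
      rw [two_rpow]
      obtain ⟨P, hP⟩ : ∃ P : ℕ, P = 2 ^ j := ⟨_, rfl⟩
      rw [← hP] at e1 e2 e3 ⊢
      have hP1 : 1 ≤ P := by rw [hP]; exact Nat.one_le_two_pow
      have hPr : (1 : ℝ) ≤ P := by exact_mod_cast hP1
      have hP0 : (0 : ℝ) < P := by linarith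
      obtain ⟨b, hb⟩ : ∃ b : ℝ, b = ((Bf B (P ^ (d + 1))).card : ℝ) := ⟨_, rfl⟩
      obtain ⟨s, hs⟩ : ∃ s : ℝ, s = ((S P).card : ℝ) := ⟨_, rfl⟩
      obtain ⟨G, hG⟩ : ∃ G : ℝ, G = (g P : ℝ) := ⟨_, rfl⟩
      have hG1 : 1 ≤ G := by rw [hG]; exact_mod_cast e2.g1
      have hG0 : 0 < G := by linarith
      have hlow := e2.low
      have hgup := e2.gup
      rw [← hs, ← hG] at hlow
      rw [← hG, ← hκ'] at hgup
      rw [← hb] at e3
      have hPk : (0 : ℝ) < (P : ℝ) ^ (d + 1) := by positivity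
      have hs0 : 0 < s := by
        by_contra hcon
        push Not at hcon
        have : s * G ≤ 0 := mul_nonpos_of_nonpos_of_nonneg hcon hG0.le
        have h2 : 0 < c * (P : ℝ) ^ (d + 1) := by positivity
        linarith
      have hb0 : 0 < b := lt_of_lt_of_le (by positivity) e3
      have hl : 0 < (s * b) ^ 2 * (P : ℝ) ^ (-((d : ℝ) + 1) + τ) := by positivity
      have h2 := energy_meas (S P) (Bf B (P ^ (d + 1))) (g P) e2.g1 e2.sep (P ^ (d + 1)) (Bf_le B _) L hL _ hl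
      rw [← hs, ← hb, ← hG] at h2
      rw [← hs, ← hb]
      refine h2.trans (ENNReal.ofReal_le_ofReal ?_)
      rw [div_le_iff₀ hl]
      -- the ratio `b / G`
      have hPs : ((P ^ (d + 1) : ℕ) : ℝ) ^ γ = (P : ℝ) ^ (((d : ℝ) + 1) * γ) := by
        push_cast
        rw [← Real.rpow_natCast, ← Real.rpow_mul hP0.le]
        congr 1
        push_cast
        ring
      rw [hPs] at e3
      have hratio : 1 + Real.log ((P ^ (d + 1) : ℕ) : ℝ) ≤ b / G := by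
        rw [le_div_iff₀ hG0]
        have hlog : Real.log ((P ^ (d + 1) : ℕ) : ℝ) = ((d : ℝ) + 1) * Real.log P := by
          push_cast
          rw [Real.log_pow]
          push_cast
          ring
        rw [hlog]
        have hl0 : 0 ≤ Real.log P := Real.log_nonneg hPr
        calc (1 + ((d : ℝ) + 1) * Real.log P) * G ≤ (1 + ((d : ℝ) + 1) * Real.log P) * (C * (P : ℝ) ^ (((d : ℝ) + 1) * κ')) :=
              mul_le_mul_of_nonneg_left hgup (by positivity)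
          _ = (C + C * ((d : ℝ) + 1) * Real.log P) * (P : ℝ) ^ (((d : ℝ) + 1) * κ') := by ring
          _ ≤ (P : ℝ) ^ δ * (P : ℝ) ^ (((d : ℝ) + 1) * κ') := mul_le_mul_of_nonneg_right e1 (by positivity)
          _ = (P : ℝ) ^ (((d : ℝ) + 1) * γ) := by
            rw [← Real.rpow_add hP0, hδ]
            congr 1
            ring
          _ ≤ b := e3
      have hlogN : 0 ≤ Real.log ((P ^ (d + 1) : ℕ) : ℝ) := Real.log_natCast_nonneg _
      have hinv : 1 / G ≤ s / (c * (P : ℝ) ^ (d + 1)) := by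
        rw [div_le_div_iff₀ hG0 (by positivity)]
        linarith
      have hpow : (P : ℝ) ^ (-((d : ℝ) + 1) + τ) = 1 / (P : ℝ) ^ (d + 1) * (P : ℝ) ^ τ := by
        rw [Real.rpow_add hP0, Real.rpow_neg hP0.le, one_div]
        congr 2
        rw [← Real.rpow_natCast]
        push_cast
        rfl
      have hττ : (P : ℝ) ^ (-τ) * (P : ℝ) ^ τ = 1 := by
        rw [← Real.rpow_add hP0, neg_add_cancel, Real.rpow_zero]
      calc s * b * (4 * L + 8 * (1 + Real.log ((P ^ (d + 1) : ℕ) : ℝ)) + 4 * (1 + L) * (b / G))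
          ≤ s * b * (4 * L * (b / G) + 8 * (b / G) + 4 * (1 + L) * (b / G)) := by
            apply mul_le_mul_of_nonneg_left _ (by positivity)
            have : 1 ≤ b / G := by linarith
            nlinarith
        _ = (8 * L + 12) * (s * b ^ 2) * (1 / G) := by ring
        _ ≤ (8 * L + 12) * (s * b ^ 2) * (s / (c * (P : ℝ) ^ (d + 1))) := mul_le_mul_of_nonneg_left hinv (by positivity)
        _ = (8 * L + 12) / c * ((s * b) ^ 2 * (1 / (P : ℝ) ^ (d + 1))) * ((P : ℝ) ^ (-τ) * (P : ℝ) ^ τ) := by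
            rw [hττ]
            field_simp
        _ = _ := by rw [hpow]; ring)
  filter_upwards [h1] with x hx hxI
  filter_upwards [hx] with j hj
  simp only [not_and, not_le] at hj
  exact (hj hxI).le

end Pool.Agent.Zk40.D
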