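import Pool.Agent.Zk40.D.One

/-!
Dilated sets in Waring's problem: the main theorem.
-/

namespace Pool.Agent.Zk40.D

open Finset Filter Topology MeasureTheory
open Pool.Agent.Zk40.W (ES)

/-- from the scales to all integers -/
lemma from_scales (k C₁ : ℕ) (hk : 1 ≤ k) (hC₁ : 1 ≤ C₁) (Q : ℕ → Prop)
    (h : ∀ᶠ j : ℕ in atTop, ∀ N : ℕ, (2 * (C₁ * 2 ^ j)) ^ k ≤ N → N < (4 * (C₁ * 2 ^ j)) ^ k → Q N) :
    ∃ N₀ : ℕ, ∀ N ≥ N₀, Q N := by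
  obtain ⟨j₀, hj₀⟩ := eventually_atTop.1 h
  refine ⟨(2 * (C₁ * 2 ^ j₀)) ^ k, fun N hN => ?_⟩
  have hex : ∃ j, j₀ ≤ j ∧ N < (2 * (C₁ * 2 ^ (j + 1))) ^ k := by
    refine ⟨j₀ + N, by omega, ?_⟩
    have h1 : N < 2 ^ (j₀ + N + 1) := Nat.lt_two_pow_self.trans_le (Nat.pow_le_pow_right (by norm_num) (by omega))
    have h2 : 2 ^ (j₀ + N + 1) ≤ 2 * (C₁ * 2 ^ (j₀ + N + 1)) := by
      have : 2 ^ (j₀ + N + 1) ≤ C₁ * 2 ^ (j₀ + N + 1) := Nat.le_mul_of_pos_left _ hC₁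
      omega
    exact lt_of_lt_of_le h1 (h2.trans (Nat.le_self_pow (by omega) _))
  obtain ⟨j, hj⟩ : ∃ j, j = Nat.find hex := ⟨_, rfl⟩
  have hj1 : j₀ ≤ j ∧ N < (2 * (C₁ * 2 ^ (j + 1))) ^ k := by rw [hj]; exact Nat.find_spec hex
  have hj2 : (2 * (C₁ * 2 ^ j)) ^ k ≤ N := by
    rcases hj1.1.eq_or_lt with h | h
    · rw [← h]; exact hN
    · have := Nat.find_min hex (show j - 1 < Nat.find hex by rw [← hj]; omega)
      push Not at this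
      have h2 := this (by omega)
      rwa [show j - 1 + 1 = j by omega] at h2
  apply hj₀ j hj1.1 N hj2
  have : 4 * (C₁ * 2 ^ j) = 2 * (C₁ * 2 ^ (j + 1)) := by rw [pow_succ]; ring
  rw [this]
  exact hj1.2

lemma IsSum.add {k u v s t : ℕ} (hs : IsSum k u s) (ht : IsSum k v t) : IsSum k (u + v) (s + t) := by
  obtain ⟨x, hx1, hx2⟩ := hs
  obtain ⟨y, hy1, hy2⟩ := ht
  refine ⟨Fin.append x y, ?_, ?_⟩
  · intro i
    refine Fin.addCases (fun i => ?_) (fun i => ?_) i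
    · rw [Fin.append_left]; exact hx1 i
    · rw [Fin.append_right]; exact hy1 i
  · rw [Fin.sum_univ_add]
    simp only [Fin.append_left, Fin.append_right]
    rw [hx2, hy2]

lemma IsSum.one {k z : ℕ} (hz : 1 ≤ z) : IsSum k 1 (z ^ k) := ⟨fun _ => z, fun _ => hz, by simp⟩

/-- the main theorem for one exponent -/
theorem main_one (d : ℕ) (hd : 1 ≤ d) (u : ℕ) (B : Set ℕ) (γ : ℝ)
    (hB : ∀ᶠ N : ℕ in atTop, (N : ℝ) ^ γ ≤ ((Bf B N).card : ℝ)) (hγ : (1 - 1 / ((d : ℝ) + 1)) ^ (u + 1) < γ) (L : ℕ)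
    (hL : 1 ≤ L) :
    ∀ᵐ x : ℝ, x ∈ Set.Icc 0 (L : ℝ) → 0 < x → ∃ N₀ : ℕ, ∀ N ≥ N₀, ∃ s b b' : ℕ, IsSum (d + 1) (2 * (u + 1) + 1) s ∧
      b ∈ B ∧ b' ∈ B ∧ s + ⌊x * b⌋₊ + ⌊x * b'⌋₊ = N := by
  obtain ⟨hκ0, hκ1, _⟩ := kap_pos d hd
  have hγ0 : 0 < γ := lt_trans (by positivity) hγ
  obtain ⟨C, c, hC, hc, hev⟩ := exists_sep d hd u
  have hch : ∃ (S : ℕ → Finset ℕ) (g : ℕ → ℕ), ∀ᶠ P : ℕ in atTop, Sep d (u + 1) C c P (S P) (g P) := by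
    obtain ⟨P₀, hP₀⟩ := eventually_atTop.1 hev
    have h1 : ∀ P : ℕ, ∃ (S : Finset ℕ) (g : ℕ), P₀ ≤ P → Sep d (u + 1) C c P S g := by
      intro P
      by_cases h : P₀ ≤ P
      · obtain ⟨S, g, hS⟩ := hP₀ P h
        exact ⟨S, g, fun _ => hS⟩
      · exact ⟨∅, 0, fun h' => absurd h' h⟩
    choose S g hS using h1
    exact ⟨S, g, eventually_atTop.2 ⟨P₀, fun P hP => hS P hP⟩⟩
  obtain ⟨S, g, hS⟩ := hch
  obtain ⟨c', m, _, hwey⟩ := wey d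
  obtain ⟨ρ, hρ⟩ : ∃ ρ : ℝ, ρ = min (((d : ℝ) + 1) * γ / 100) (1 / 8) := ⟨_, rfl⟩
  have hρ0 : 0 < ρ := by rw [hρ]; exact lt_min (by positivity) (by norm_num)
  have hρ1 : 100 * ρ ≤ ((d : ℝ) + 1) * γ := by
    have : ρ ≤ ((d : ℝ) + 1) * γ / 100 := by rw [hρ]; exact min_le_left _ _
    linarith
  have hρ2 : ρ ≤ 1 / 8 := by rw [hρ]; exact min_le_right _ _
  obtain ⟨ρ₀, hρ₀⟩ : ∃ ρ₀ : ℝ, ρ₀ = ρ / ((m : ℝ) + 1) := ⟨_, rfl⟩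
  have hρ₀0 : 0 < ρ₀ := by rw [hρ₀]; positivity
  have hρρ : ρ₀ * ((m : ℝ) + 1) = ρ := by rw [hρ₀]; field_simp
  have hLr : (0 : ℝ) ≤ L := Nat.cast_nonneg _
  filter_upwards [ae_en d u C c hc S g hS B γ hB hγ L hLr (ρ₀ / 2) (by positivity),
    ae_sup d (Tl ρ₀ m) ρ γ (Tl_bd ρ₀ ρ m hρ₀0 hρρ) hρ1 hρ2 hγ0 B hB L hL] with x hx1 hx2 hxI hx0
  obtain ⟨C₁, hC₁, h1⟩ := one_scale d hd u C c hC hc S g hS B γ hB c' m hwey ρ₀ ρ hρ₀0 hρρ hρ2 x hx0 (hx1 hxI) (hx2 hxI)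
  obtain ⟨N₀, hN₀⟩ := from_scales (d + 1) C₁ (by omega) hC₁ _ h1
  refine ⟨N₀, fun N hN => ?_⟩
  obtain ⟨s, s', b, b', z, h2, h3, h4, h5, h6, h7⟩ := hN₀ N hN
  refine ⟨s + s' + z ^ (d + 1), b, b', ?_, h4, h5, h7⟩
  have h8 := (h2.add h3).add (IsSum.one (k := d + 1) h6)
  have h9 : u + 1 + (u + 1) + 1 = 2 * (u + 1) + 1 := by ring
  rwa [h9] at h8

/-- the main theorem -/
theorem main_all (B : Set ℕ) (γ : ℝ) (hB : ∀ᶠ N : ℕ in atTop, (N : ℝ) ^ γ ≤ ((Bf B N).card : ℝ)) :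
    ∀ᵐ x : ℝ, 0 < x → ∀ k u : ℕ, 2 ≤ k → 1 ≤ u → (1 - 1 / (k : ℝ)) ^ u < γ → ∃ N₀ : ℕ, ∀ N ≥ N₀,
      ∃ s b b' : ℕ, IsSum k (2 * u + 1) s ∧ b ∈ B ∧ b' ∈ B ∧ s + ⌊x * b⌋₊ + ⌊x * b'⌋₊ = N := by
  have h1 : ∀ᵐ x : ℝ, ∀ L d u : ℕ, 1 ≤ L → 1 ≤ d → (1 - 1 / ((d : ℝ) + 1)) ^ (u + 1) < γ → x ∈ Set.Icc 0 (L : ℝ) → 0 < x →
      ∃ N₀ : ℕ, ∀ N ≥ N₀, ∃ s b b' : ℕ, IsSum (d + 1) (2 * (u + 1) + 1) s ∧ b ∈ B ∧ b' ∈ B ∧ s + ⌊x * b⌋₊ + ⌊x * b'⌋₊ = N := by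
    rw [ae_all_iff]; intro L
    rw [ae_all_iff]; intro d
    rw [ae_all_iff]; intro u
    by_cases hL : 1 ≤ L
    · by_cases hd : 1 ≤ d
      · by_cases hγ : (1 - 1 / ((d : ℝ) + 1)) ^ (u + 1) < γ
        · filter_upwards [main_one d hd u B γ hB hγ L hL] with x hx _ _ _ hI h0
          exact hx hI h0
        · exact ae_of_all _ fun x _ _ h => absurd h hγ
      · exact ae_of_all _ fun x _ h => absurd h hd
    · exact ae_of_all _ fun x h => absurd h hL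
  filter_upwards [h1] with x hx hx0 k u hk hu hγ
  obtain ⟨d, rfl⟩ : ∃ d, k = d + 1 := ⟨k - 1, by omega⟩
  obtain ⟨v, rfl⟩ : ∃ v, u = v + 1 := ⟨u - 1, by omega⟩
  have h2 := hx (⌈x⌉₊ + 1) d v (by omega) (by omega) (by push_cast at hγ ⊢; exact hγ)
    ⟨hx0.le, by push_cast; linarith [Nat.le_ceil x]⟩ hx0
  exact h2

/-- the number of sums of `v` `m`-th powers -/
theorem count_sums (d : ℕ) (hd : 1 ≤ d) (v : ℕ) (γ : ℝ) (hγ : γ < 1 - (1 - 1 / ((d : ℝ) + 1)) ^ (v + 1)) :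
    ∀ᶠ N : ℕ in atTop, (N : ℝ) ^ γ ≤ ((Bf {n | IsSum (d + 1) (v + 1) n} N).card : ℝ) := by
  classical
  obtain ⟨hκ0, hκ1, hκd⟩ := kap_pos d hd
  obtain ⟨κ, hκ⟩ : ∃ κ : ℝ, κ = 1 - 1 / ((d : ℝ) + 1) := ⟨_, rfl⟩
  rw [← hκ] at hκ0 hκ1 hκd hγ
  obtain ⟨C, c, hC, hc, hev⟩ := exists_sep d hd v
  obtain ⟨κ', hκ'⟩ : ∃ κ' : ℝ, κ' = κ ^ (v + 1) := ⟨_, rfl⟩
  rw [← hκ'] at hγ
  have hκ'0 : 0 < κ' := by rw [hκ']; positivity
  have hκ'1 : κ' < 1 := by rw [hκ']; exact pow_lt_one₀ hκ0.le hκ1 (by omega)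
  have hd0 : (0 : ℝ) < (d : ℝ) + 1 := by positivity
  -- the scale
  have hnat : Tendsto (fun M : ℕ => (M : ℝ)) atTop atTop := tendsto_natCast_atTop_atTop
  have ht : Tendsto (fun N : ℕ => ((N : ℝ) / C) ^ (1 / ((d : ℝ) + 1))) atTop atTop :=
    (tendsto_rpow_atTop (by positivity)).comp (hnat.atTop_div_const (by linarith))
  have hφ : Tendsto (fun N : ℕ => ⌊((N : ℝ) / C) ^ (1 / ((d : ℝ) + 1))⌋₊) atTop atTop := tendsto_nat_floor_atTop.comp ht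
  obtain ⟨δ, hδ⟩ : ∃ δ : ℝ, δ = (1 - κ') - γ := ⟨_, rfl⟩
  have hδ0 : 0 < δ := by rw [hδ]; linarith
  obtain ⟨A, hA⟩ : ∃ A : ℝ, A = (c / C) * (1 / (C * 2 ^ (d + 1))) := ⟨_, rfl⟩
  have hA0 : 0 < A := by rw [hA]; positivity
  filter_upwards [hφ.eventually hev, ht.eventually_ge_atTop 1, eventually_ge_atTop 1,
    ((tendsto_rpow_atTop hδ0).comp hnat).eventually_ge_atTop (1 / A)] with N h1 h2 h3 h4
  simp only [Function.comp] at h4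
  have hNr : (1 : ℝ) ≤ N := by exact_mod_cast h3
  have hN0 : (0 : ℝ) < N := by linarith
  obtain ⟨P, hP⟩ : ∃ P : ℕ, P = ⌊((N : ℝ) / C) ^ (1 / ((d : ℝ) + 1))⌋₊ := ⟨_, rfl⟩
  rw [← hP] at h1
  obtain ⟨S, g, hS⟩ := h1
  have e1 : (P : ℝ) ≤ ((N : ℝ) / C) ^ (1 / ((d : ℝ) + 1)) := by rw [hP]; exact Nat.floor_le (by positivity)
  have hP1 : 1 ≤ P := by rw [hP]; exact Nat.le_floor (by exact_mod_cast h2)
  have hPr : (1 : ℝ) ≤ P := by exact_mod_cast hP1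
  have hP0 : (0 : ℝ) < P := by linarith
  have e2 : ((N : ℝ) / C) ^ (1 / ((d : ℝ) + 1)) ≤ 2 * P := by
    have : ((N : ℝ) / C) ^ (1 / ((d : ℝ) + 1)) < P + 1 := by rw [hP]; exact Nat.lt_floor_add_one _
    linarith
  have e3 : (((N : ℝ) / C) ^ (1 / ((d : ℝ) + 1))) ^ (d + 1) = (N : ℝ) / C := by
    rw [← Real.rpow_natCast, ← Real.rpow_mul (by positivity)]
    push_cast
    rw [one_div_mul_cancel hd0.ne', Real.rpow_one]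
  have e4 : (P : ℝ) ^ (d + 1) ≤ (N : ℝ) / C := by
    rw [← e3]; exact pow_le_pow_left₀ hP0.le e1 _
  have e5 : (N : ℝ) / C ≤ 2 ^ (d + 1) * (P : ℝ) ^ (d + 1) := by
    rw [← e3, ← mul_pow]; exact pow_le_pow_left₀ (by positivity) e2 _
  have hsub : S ⊆ Bf {n | IsSum (d + 1) (v + 1) n} N := by
    intro s hs
    unfold Bf
    rw [mem_filter, mem_Icc]
    have h5 := hS.sum s hs
    refine ⟨⟨?_, ?_⟩, h5⟩
    · obtain ⟨y, hy1, hy2⟩ := h5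
      rw [← hy2, Fin.sum_univ_succ]
      have : 1 ≤ y 0 ^ (d + 1) := Nat.one_le_pow _ _ (hy1 0)
      omega
    · have h6 := hS.up s hs
      have h7 : C * (P : ℝ) ^ (d + 1) ≤ N := by
        rw [le_div_iff₀ (by linarith)] at e4
        linarith
      exact_mod_cast h6.trans h7
  have hcard : (S.card : ℝ) ≤ ((Bf {n | IsSum (d + 1) (v + 1) n} N).card : ℝ) := by exact_mod_cast card_le_card hsub
  refine le_trans ?_ hcard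
  -- the lower bound for `S.card`
  have hgup := hS.gup
  rw [← hκ, ← hκ'] at hgup
  have hg1 : (1 : ℝ) ≤ g := by exact_mod_cast hS.g1
  have hg0 : (0 : ℝ) < g := by linarith
  have hPκ : (P : ℝ) ^ (((d : ℝ) + 1) * κ') ≤ (N : ℝ) ^ κ' := by
    calc (P : ℝ) ^ (((d : ℝ) + 1) * κ') = ((P : ℝ) ^ (d + 1)) ^ κ' := by
          rw [← Real.rpow_natCast, ← Real.rpow_mul hP0.le]; push_cast; rfl
      _ ≤ (N : ℝ) ^ κ' := by
          apply Real.rpow_le_rpow (by positivity) _ hκ'0.le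
          exact e4.trans (div_le_self hN0.le hC)
  have h5 : c * ((N : ℝ) / (C * 2 ^ (d + 1))) ≤ S.card * (C * (N : ℝ) ^ κ') := by
    calc c * ((N : ℝ) / (C * 2 ^ (d + 1))) ≤ c * (P : ℝ) ^ (d + 1) := by
          apply mul_le_mul_of_nonneg_left _ hc.le
          rw [div_le_iff₀ (by positivity)]
          rw [div_le_iff₀ (by linarith)] at e5
          linarith
      _ ≤ (S.card : ℝ) * g := hS.low
      _ ≤ _ := by
          apply mul_le_mul_of_nonneg_left _ (Nat.cast_nonneg _)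
          exact hgup.trans (mul_le_mul_of_nonneg_left hPκ (by linarith))
  have h6 : A * (N : ℝ) ^ (1 - κ') ≤ S.card := by
    have h7 : (N : ℝ) ^ (1 - κ') * (N : ℝ) ^ κ' = N := by
      rw [← Real.rpow_add hN0, sub_add_cancel, Real.rpow_one]
    have h8 : 0 < C * (N : ℝ) ^ κ' := by positivity
    apply le_of_mul_le_mul_right _ h8
    refine le_trans (le_of_eq ?_) h5
    rw [hA]
    have h9 : c / C * (1 / (C * 2 ^ (d + 1))) * (N : ℝ) ^ (1 - κ') * (C * (N : ℝ) ^ κ') =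
        c / C * (1 / (C * 2 ^ (d + 1))) * C * ((N : ℝ) ^ (1 - κ') * (N : ℝ) ^ κ') := by ring
    rw [h9, h7]
    field_simp
  refine le_trans ?_ h6
  have h7 : (N : ℝ) ^ (1 - κ') = (N : ℝ) ^ δ * (N : ℝ) ^ γ := by
    rw [← Real.rpow_add hN0, hδ]; congr 1; ring
  rw [h7, ← mul_assoc]
  rw [div_le_iff₀ hA0] at h4
  have h8 : 0 ≤ (N : ℝ) ^ γ := by positivity
  nlinarith

end Pool.Agent.Zk40.D
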