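import Pool.Agent.Zk40.W.Circle

/-!
Dilated sets in Waring's problem: an abstract form of the circle method.
-/

namespace Pool.Agent.Zk40.D

open Finset MeasureTheory intervalIntegral
open Pool.Agent.H469R2.NK (e norm_e e_add conj_e e_zero)
open Pool.Agent.Zk40.W (ES ES_cont ES_mul e_cont coeff parseval DW DW_bound)

/-- the indicator of an interval -/
noncomputable def ind (c δ : ℝ) (β : ℝ) : ℝ := (Set.Icc (c - δ) (c + δ)).indicator (fun _ => (1 : ℝ)) β

lemma ind_int (c δ : ℝ) : IntervalIntegrable (ind c δ) volume (-(1 / 2)) (1 / 2) := by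
  rw [intervalIntegrable_iff_integrableOn_Ioc_of_le (by norm_num)]
  exact (integrable_const (1 : ℝ)).indicator measurableSet_Icc

lemma ind_le (c δ : ℝ) (hδ : 0 ≤ δ) : ∫ β in (-(1 / 2) : ℝ)..(1 / 2), ind c δ β ≤ 2 * δ := by
  rw [intervalIntegral.integral_of_le (by norm_num)]
  have h1 : ∫ β in Set.Ioc (-(1 / 2) : ℝ) (1 / 2), ind c δ β =
      ((volume : Measure ℝ).restrict (Set.Ioc (-(1 / 2) : ℝ) (1 / 2))).real (Set.Icc (c - δ) (c + δ)) := by
    unfold ind
    rw [MeasureTheory.integral_indicator measurableSet_Icc]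
    simp
  rw [h1, measureReal_restrict_apply measurableSet_Icc]
  calc volume.real (Set.Icc (c - δ) (c + δ) ∩ Set.Ioc (-(1 / 2) : ℝ) (1 / 2)) ≤ volume.real (Set.Icc (c - δ) (c + δ)) :=
        measureReal_mono Set.inter_subset_left (by rw [Real.volume_Icc]; exact ENNReal.ofReal_ne_top)
    _ = 2 * δ := by
      rw [Real.volume_real_Icc_of_le (by linarith)]
      ring

/-- The comparison of the number of representations with the average over a window. -/
theorem circle2 {ι α : Type} (Ys : Finset ι) (V : ι → ℕ) (Z₁ Z₂ : Finset ℕ) (w : ℕ → ℕ) (KB X₁ X₂ δ : ℝ)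
    (hKB0 : 0 ≤ KB) (hX₁ : 0 ≤ X₁) (hδ : 0 ≤ δ) (I : Finset α) (cen : α → ℝ)
    (hKB : ∀ β : ℝ, ‖ES Z₁ w β‖ * ‖ES Z₂ w β‖ ≤ KB)
    (h : ∀ β : ℝ, |β| ≤ 1 / 2 → ‖ES Z₁ w β‖ * ‖ES Z₂ w β‖ ≤ X₁ ∨ |β| ≤ δ ∨
      ∃ i ∈ I, |β - cen i| ≤ δ ∧ ‖ES Ys V β‖ ≤ X₂)
    (E : ℝ) (hE : (((Ys ×ˢ Ys).filter (fun p => V p.1 = V p.2)).card : ℝ) ≤ E) (W : ℕ) (hW : 1 ≤ W) (N : ℕ) :
    (1 / (W : ℝ)) * ∑ j ∈ range W, (((((Ys ×ˢ Ys) ×ˢ (Z₁ ×ˢ Z₂)).filter
      (fun p => (((V p.1.1 + V p.1.2) + (w p.2.1 + w p.2.2) : ℕ) : ℤ) = (N : ℤ) - j)).card : ℕ) : ℝ) ≤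
    (((((Ys ×ˢ Ys) ×ˢ (Z₁ ×ˢ Z₂)).filter (fun p => (V p.1.1 + V p.1.2) + (w p.2.1 + w p.2.2) = N)).card : ℕ) : ℝ) +
      ((2 * X₁ + 7 * W * δ * KB) * E + 4 * δ * I.card * (X₂ ^ 2 * KB)) := by
  have hW0 : (0 : ℝ) < W := by exact_mod_cast hW
  have hWc : (W : ℂ) ≠ 0 := by exact_mod_cast hW0.ne'
  set S := (Ys ×ˢ Ys) ×ˢ (Z₁ ×ˢ Z₂) with hS
  set v : (ι × ι) × (ℕ × ℕ) → ℕ := fun p => (V p.1.1 + V p.1.2) + (w p.2.1 + w p.2.2) with hv
  have hF : ∀ β, ES S v β = (ES Ys V β * ES Ys V β) * (ES Z₁ w β * ES Z₂ w β) := by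
    intro β
    rw [ES_mul, ES_mul, ES_mul]
  set R : ℤ → ℝ := fun n => (((S.filter (fun p => (v p : ℤ) = n)).card : ℕ) : ℝ) with hR
  have hRN : (((S.filter (fun p => v p = N)).card : ℕ) : ℝ) = R N := by
    rw [hR]
    simp only
    congr 2
    ext p
    simp only [mem_filter, Nat.cast_inj]
  -- the difference as an integral
  have hint : ((R N - (1 / (W : ℝ)) * ∑ j ∈ range W, R ((N : ℤ) - j) : ℝ) : ℂ) =
      ∫ β in (-(1 / 2) : ℝ)..(1 / 2), ES S v β * e (-(β * N)) * (1 - DW W β) := by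
    have h1 : ∀ β : ℝ, ES S v β * e (-(β * N)) * (1 - DW W β) =
        ES S v β * e (-(β * ((N : ℤ) : ℝ))) - (1 / (W : ℂ)) * ∑ j ∈ range W, ES S v β * e (-(β * (((N : ℤ) - j : ℤ) : ℝ))) := by
      intro β
      unfold DW
      rw [mul_sub, mul_one]
      push_cast
      congr 1
      rw [mul_comm (ES S v β * e (-(β * N))), mul_assoc, sum_mul]
      congr 1
      apply sum_congr rfl
      intro j _
      have : e (-(β * (N - j))) = e (-(β * N)) * e (β * j) := by
        rw [← e_add]; congr 1; ring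
      rw [this]
      ring
    simp_rw [h1]
    have hcont : ∀ n : ℤ, Continuous fun β : ℝ => ES S v β * e (-(β * (n : ℝ))) := by
      intro n
      exact (ES_cont S v).mul (e_cont.comp (by fun_prop))
    have i1 : IntervalIntegrable (fun β : ℝ => ES S v β * e (-(β * ((N : ℤ) : ℝ)))) volume (-(1 / 2)) (1 / 2) :=
      (hcont N).intervalIntegrable _ _
    have i2 : IntervalIntegrable (fun β : ℝ => (1 / (W : ℂ)) * ∑ j ∈ range W, ES S v β * e (-(β * (((N : ℤ) - j : ℤ) : ℝ))))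
        volume (-(1 / 2)) (1 / 2) :=
      (continuous_const.mul (continuous_finsetSum _ fun j _ => hcont _)).intervalIntegrable _ _
    rw [intervalIntegral.integral_sub i1 i2, intervalIntegral.integral_const_mul,
      intervalIntegral.integral_finsetSum (fun j _ => (hcont _).intervalIntegrable _ _)]
    simp_rw [coeff]
    push_cast
    simp only [hR]
    push_cast
    rfl
  obtain ⟨A, hA⟩ : ∃ A : ℝ, A = 2 * X₁ + 7 * W * δ * KB := ⟨_, rfl⟩
  have hA0 : 0 ≤ A := by rw [hA]; positivity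
  obtain ⟨D, hD⟩ : ∃ D : ℝ, D = 2 * (X₂ ^ 2 * KB) := ⟨_, rfl⟩
  have hD0 : 0 ≤ D := by rw [hD]; positivity
  have hind0 : ∀ c β, 0 ≤ ind c δ β := fun c β => Set.indicator_nonneg (fun _ _ => zero_le_one) _
  have hi1 : IntervalIntegrable (fun β : ℝ => A * ‖ES Ys V β‖ ^ 2) volume (-(1 / 2)) (1 / 2) :=
    (continuous_const.mul ((ES_cont Ys V).norm.pow 2)).intervalIntegrable _ _
  have hi2 : IntervalIntegrable (fun β : ℝ => ∑ i ∈ I, D * ind (cen i) δ β) volume (-(1 / 2)) (1 / 2) := by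
    rw [show (fun β : ℝ => ∑ i ∈ I, D * ind (cen i) δ β) = ∑ i ∈ I, fun β : ℝ => D * ind (cen i) δ β by
      funext β; rw [Finset.sum_apply]]
    exact IntervalIntegrable.sum I (fun i _ => (ind_int (cen i) δ).const_mul D)
  have hbound : ‖∫ β in (-(1 / 2) : ℝ)..(1 / 2), ES S v β * e (-(β * N)) * (1 - DW W β)‖ ≤
      ∫ β in (-(1 / 2) : ℝ)..(1 / 2), (A * ‖ES Ys V β‖ ^ 2 + ∑ i ∈ I, D * ind (cen i) δ β) := by
    apply intervalIntegral.norm_integral_le_of_norm_le (by norm_num)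
    · apply ae_of_all
      intro β hβ
      have hβ1 : |β| ≤ 1 / 2 := by
        rw [abs_le]
        exact ⟨hβ.1.le, hβ.2⟩
      have hβ0 := abs_nonneg β
      rw [norm_mul, norm_mul, norm_e, mul_one, hF, norm_mul, norm_mul, norm_mul]
      obtain ⟨d1, d2⟩ := DW_bound W hW β
      have hK := hKB β
      have htri := h β hβ1
      set f := ‖ES Ys V β‖ with hf
      have hf0 : 0 ≤ f := norm_nonneg _
      set K := ‖ES Z₁ w β‖ * ‖ES Z₂ w β‖ with hKdef
      have hK0 : 0 ≤ K := by positivity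
      set d := ‖1 - DW W β‖ with hd
      have hd0 : 0 ≤ d := norm_nonneg _
      have hsum0 : 0 ≤ ∑ i ∈ I, D * ind (cen i) δ β := sum_nonneg fun i _ => mul_nonneg hD0 (hind0 _ _)
      have hf2 : 0 ≤ f ^ 2 := by positivity
      rcases htri with h1 | h1 | ⟨i, hi, h1, h2⟩
      · have e1 : f * f * K * d ≤ f * f * X₁ * 2 := by gcongr
        have e2 : f * f * X₁ * 2 ≤ A * f ^ 2 := by
          have : 2 * X₁ ≤ A := by
            rw [hA]
            have : 0 ≤ 7 * W * δ * KB := by positivity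
            linarith
          nlinarith
        linarith
      · have e1 : f * f * K * d ≤ f * f * KB * (7 * W * δ) := by
          have : d ≤ 7 * W * δ := d2.trans (mul_le_mul_of_nonneg_left h1 (by positivity))
          gcongr
        have e2 : f * f * KB * (7 * W * δ) ≤ A * f ^ 2 := by
          have : 7 * W * δ * KB ≤ A := by
            rw [hA]; linarith
          nlinarith
        linarith
      · have e1 : f * f * K * d ≤ X₂ * X₂ * KB * 2 := by
          have : 0 ≤ X₂ := hf0.trans h2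
          gcongr
        have e2 : D * ind (cen i) δ β ≤ ∑ i ∈ I, D * ind (cen i) δ β :=
          single_le_sum (f := fun i => D * ind (cen i) δ β) (fun i _ => mul_nonneg hD0 (hind0 _ _)) hi
        have e3 : ind (cen i) δ β = 1 := by
          unfold ind
          rw [Set.indicator_of_mem]
          rw [abs_le] at h1
          constructor <;> linarith [h1.1, h1.2]
        rw [e3, mul_one] at e2
        have e4 : 0 ≤ A * f ^ 2 := by positivity
        have e5 : X₂ * X₂ * KB * 2 = D := by rw [hD]; ring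
        linarith
    · exact hi1.add hi2
  have hval : ∫ β in (-(1 / 2) : ℝ)..(1 / 2), (A * ‖ES Ys V β‖ ^ 2 + ∑ i ∈ I, D * ind (cen i) δ β) ≤
      A * E + 4 * δ * I.card * (X₂ ^ 2 * KB) := by
    rw [intervalIntegral.integral_add hi1 hi2, intervalIntegral.integral_const_mul, parseval,
      intervalIntegral.integral_finsetSum (fun i _ => (ind_int (cen i) δ).const_mul D)]
    apply add_le_add
    · exact mul_le_mul_of_nonneg_left hE hA0
    · calc ∑ i ∈ I, ∫ β in (-(1 / 2) : ℝ)..(1 / 2), D * ind (cen i) δ β ≤ ∑ _i ∈ I, D * (2 * δ) := by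
            apply sum_le_sum
            intro i _
            rw [intervalIntegral.integral_const_mul]
            exact mul_le_mul_of_nonneg_left (ind_le _ _ hδ) hD0
        _ = _ := by
            rw [sum_const, nsmul_eq_mul, hD]
            ring
  have hfin : ‖((R N - (1 / (W : ℝ)) * ∑ j ∈ range W, R ((N : ℤ) - j) : ℝ) : ℂ)‖ ≤
      A * E + 4 * δ * I.card * (X₂ ^ 2 * KB) := by
    rw [hint]
    exact hbound.trans hval
  rw [Complex.norm_real, Real.norm_eq_abs, abs_le] at hfin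
  rw [hRN]
  have := hfin.1
  rw [hA] at this
  linarith

end Pool.Agent.Zk40.D
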