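import Pool.Agent.Zk40.D.Reg
import Pool.Agent.Zk40.W.AE

/-!
Dilated sets in Waring's problem: the energy on average over the dilation.
-/

namespace Pool.Agent.Zk40.D

open Finset Filter Topology MeasureTheory
open Pool.Agent.Zk40.W (markov)

/-- the Borel-Cantelli lemma with a geometric bound -/
lemma bc (s : ℕ → Set ℝ) (C r : ℝ) (hr0 : 0 ≤ r) (hr1 : r < 1) (hC : 0 ≤ C)
    (h : ∀ᶠ j : ℕ in atTop, volume (s j) ≤ ENNReal.ofReal (C * r ^ j)) : ∀ᵐ x : ℝ, ∀ᶠ j : ℕ in atTop, x ∉ s j := by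
  obtain ⟨j₀, hj₀⟩ := eventually_atTop.1 h
  set t : ℕ → Set ℝ := fun j => s (j₀ + j) with ht
  have hsum : ∑' j, volume (t j) ≠ ⊤ := by
    have hle : ∀ j, volume (t j) ≤ ENNReal.ofReal (C * r ^ j) := by
      intro j
      refine (hj₀ (j₀ + j) (by omega)).trans (ENNReal.ofReal_le_ofReal ?_)
      apply mul_le_mul_of_nonneg_left _ hC
      exact pow_le_pow_of_le_one hr0 hr1.le (by omega)
    refine ne_top_of_le_ne_top ?_ (ENNReal.tsum_le_tsum hle)
    have hsm : Summable fun j : ℕ => C * r ^ j := (summable_geometric_of_lt_one hr0 hr1).mul_left C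
    exact hsm.tsum_ofReal_ne_top
  filter_upwards [ae_eventually_notMem hsum] with θ hθ
  obtain ⟨j₁, hj₁⟩ := eventually_atTop.1 hθ
  rw [eventually_atTop]
  refine ⟨j₀ + j₁, fun j hj => ?_⟩
  have h1 := hj₁ (j - j₀) (by omega)
  simpa only [ht, show j₀ + (j - j₀) = j by omega] using h1

/-- a separated set has few elements in an interval -/
lemma count_sep (S : Finset ℕ) (g : ℕ) (hg : 1 ≤ g) (hs : ∀ s ∈ S, ∀ s' ∈ S, s < s' → s + g ≤ s') (x R : ℝ) (hR : 0 ≤ R) :
    ((S.filter (fun s : ℕ => |x - (s : ℝ)| ≤ R)).card : ℝ) ≤ 2 * R / g + 2 := by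
  have hg0 : (0 : ℝ) < g := by exact_mod_cast hg
  have h1 : ((S.filter (fun s : ℕ => |x - (s : ℝ)| ≤ R)).card) ≤ (Icc ⌊(x - R) / g⌋ ⌊(x + R) / g⌋).card := by
    apply card_le_card_of_injOn (fun s : ℕ => ((s / g : ℕ) : ℤ))
    · intro s hs'
      rw [mem_coe, mem_filter, abs_le] at hs'
      obtain ⟨_, h2, h3⟩ := hs'
      rw [mem_coe, mem_Icc]
      have e : ((s / g : ℕ) : ℤ) = ⌊(s : ℝ) / g⌋ := by
        rw [← Nat.floor_div_eq_div (K := ℝ) s g]
        exact Int.natCast_floor_eq_floor (by positivity)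
      show ⌊(x - R) / g⌋ ≤ ((s / g : ℕ) : ℤ) ∧ ((s / g : ℕ) : ℤ) ≤ ⌊(x + R) / g⌋
      rw [e]
      constructor
      · apply Int.floor_le_floor
        gcongr
        linarith
      · apply Int.floor_le_floor
        gcongr
        linarith
    · have key : ∀ s ∈ S, ∀ s' ∈ S, s < s' → s / g = s' / g → False := by
        intro s h2 s' h3 h4 h5
        have h6 := hs s h2 s' h3 h4
        have h7 : s / g < (s + g) / g := by
          rw [Nat.add_div_right _ (by omega)]
          omega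
        have h8 := Nat.div_le_div_right (c := g) h6
        omega
      intro s h2 s' h3 h4
      rw [mem_coe, mem_filter] at h2 h3
      have h4' : s / g = s' / g := Int.ofNat_inj.1 h4
      rcases lt_trichotomy s s' with h | h | h
      · exact (key s h2.1 s' h3.1 h h4').elim
      · exact h
      · exact (key s' h3.1 s h2.1 h h4'.symm).elim
  have h2 : ((Icc ⌊(x - R) / g⌋ ⌊(x + R) / g⌋).card : ℝ) ≤ 2 * R / g + 2 := by
    rw [Int.card_Icc]
    have e1 : (((⌊(x + R) / g⌋ + 1 - ⌊(x - R) / g⌋).toNat : ℕ) : ℝ) = ((⌊(x + R) / g⌋ + 1 - ⌊(x - R) / g⌋ : ℤ) : ℝ) := by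
      have : 0 ≤ ⌊(x + R) / g⌋ + 1 - ⌊(x - R) / g⌋ := by
        have : ⌊(x - R) / g⌋ ≤ ⌊(x + R) / g⌋ := Int.floor_le_floor (by gcongr; linarith)
        omega
      exact_mod_cast Int.toNat_of_nonneg this
    rw [e1]
    push_cast
    have e2 := Int.floor_le ((x + R) / g)
    have e3 := Int.sub_one_lt_floor ((x - R) / g)
    have e4 : (x + R) / g - (x - R) / g = 2 * R / g := by ring
    linarith
  have h3 : ((S.filter (fun s : ℕ => |x - (s : ℝ)| ≤ R)).card : ℝ) ≤ ((Icc ⌊(x - R) / g⌋ ⌊(x + R) / g⌋).card : ℝ) := by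
    exact_mod_cast h1
  linarith

lemma harm (N : ℕ) : ∑ D ∈ Icc 1 N, (1 : ℝ) / D ≤ 1 + Real.log N := by
  have h1 := harmonic_le_one_add_log N
  refine le_trans (le_of_eq ?_) h1
  unfold harmonic
  push_cast
  rw [show Icc 1 N = (range N).image (· + 1) by
    ext n; simp only [mem_Icc, mem_image, mem_range]
    constructor
    · rintro ⟨a, b⟩; exact ⟨n - 1, by omega, by omega⟩
    · rintro ⟨a, b, rfl⟩; omega]
  rw [sum_image (fun a _ b _ h => by simpa using h)]
  apply sum_congr rfl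
  intro i _
  push_cast
  rw [one_div]

lemma inv_sum (B : Finset ℕ) (N : ℕ) (hB : ∀ b ∈ B, b ≤ N) (b : ℕ) (hb : b ≤ N) :
    ∑ b' ∈ B.erase b, 1 / |(b : ℝ) - b'| ≤ 2 * (1 + Real.log N) := by
  have h1 : ∑ b' ∈ B.erase b, 1 / |(b : ℝ) - b'| =
      ∑ b' ∈ (B.erase b).filter (· < b), 1 / |(b : ℝ) - b'| + ∑ b' ∈ (B.erase b).filter (fun b' => ¬ b' < b), 1 / |(b : ℝ) - b'| :=
    (sum_filter_add_sum_filter_not _ _ _).symm
  have h2 : ∑ b' ∈ (B.erase b).filter (· < b), 1 / |(b : ℝ) - b'| ≤ ∑ D ∈ Icc 1 N, (1 : ℝ) / D := by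
    have e1 : ∑ b' ∈ (B.erase b).filter (· < b), 1 / |(b : ℝ) - b'| =
        ∑ D ∈ ((B.erase b).filter (· < b)).image (fun b' => b - b'), (1 : ℝ) / D := by
      rw [sum_image]
      · apply sum_congr rfl
        intro b' hb'
        rw [mem_filter] at hb'
        rw [Nat.cast_sub hb'.2.le, abs_of_nonneg]
        have : (b' : ℝ) ≤ b := by exact_mod_cast hb'.2.le
        linarith
      · intro x hx y hy hxy
        rw [mem_coe, mem_filter] at hx hy
        simp only at hxy
        omega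
    rw [e1]
    apply sum_le_sum_of_subset_of_nonneg
    · intro D hD
      rw [mem_image] at hD
      obtain ⟨b', hb', rfl⟩ := hD
      rw [mem_filter] at hb'
      rw [mem_Icc]
      omega
    · intro i _ _
      positivity
  have h3 : ∑ b' ∈ (B.erase b).filter (fun b' => ¬ b' < b), 1 / |(b : ℝ) - b'| ≤ ∑ D ∈ Icc 1 N, (1 : ℝ) / D := by
    have e1 : ∑ b' ∈ (B.erase b).filter (fun b' => ¬ b' < b), 1 / |(b : ℝ) - b'| =
        ∑ D ∈ ((B.erase b).filter (fun b' => ¬ b' < b)).image (fun b' => b' - b), (1 : ℝ) / D := by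
      rw [sum_image]
      · apply sum_congr rfl
        intro b' hb'
        rw [mem_filter, not_lt] at hb'
        rw [Nat.cast_sub hb'.2, abs_sub_comm, abs_of_nonneg]
        have : (b : ℝ) ≤ b' := by exact_mod_cast hb'.2
        linarith
      · intro x hx y hy hxy
        rw [mem_coe, mem_filter, not_lt] at hx hy
        simp only at hxy
        omega
    rw [e1]
    apply sum_le_sum_of_subset_of_nonneg
    · intro D hD
      rw [mem_image] at hD
      obtain ⟨b', hb', rfl⟩ := hD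
      rw [mem_filter, mem_erase, not_lt] at hb'
      have := hB b' hb'.1.2
      rw [mem_Icc]
      omega
    · intro i _ _
      positivity
  have := harm N
  linarith

/-- the set of dilations at which two pairs are close -/
def Tp (p : (ℕ × ℕ) × (ℕ × ℕ)) : Set ℝ := {x : ℝ | |((p.1.1 : ℝ) - p.2.1) + x * ((p.1.2 : ℝ) - p.2.2)| ≤ 1}

lemma Tp_closed (p : (ℕ × ℕ) × (ℕ × ℕ)) : IsClosed (Tp p) := by
  unfold Tp
  exact isClosed_le (by fun_prop) continuous_const

open Classical in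
/-- the number of close pairs -/
noncomputable def EnD (S B : Finset ℕ) (x : ℝ) : ℝ :=
  (((((S ×ˢ B) ×ˢ (S ×ˢ B)).filter (fun p => x ∈ Tp p)).card : ℕ) : ℝ)

lemma Tp_meas (p : (ℕ × ℕ) × (ℕ × ℕ)) (L : ℝ) (hL : 0 ≤ L) :
    volume.real (Set.Icc 0 L ∩ Tp p) ≤ if p.1.2 = p.2.2 then (if |(p.1.1 : ℝ) - p.2.1| ≤ 1 then L else 0) else
      (if |(p.1.1 : ℝ) - p.2.1| ≤ 1 + L * |(p.1.2 : ℝ) - p.2.2| then 2 / |(p.1.2 : ℝ) - p.2.2| else 0) := by
  have hI : volume.real (Set.Icc 0 L ∩ Tp p) ≤ L := by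
    calc volume.real (Set.Icc 0 L ∩ Tp p) ≤ volume.real (Set.Icc 0 L) :=
          measureReal_mono Set.inter_subset_left (by rw [Real.volume_Icc]; exact ENNReal.ofReal_ne_top)
      _ = L := by rw [Real.volume_real_Icc_of_le hL, sub_zero]
  split_ifs with h1 h2 h2
  · exact hI
  · have : Set.Icc 0 L ∩ Tp p = ∅ := by
      rw [Set.eq_empty_iff_forall_notMem]
      rintro x ⟨_, hx⟩
      unfold Tp at hx
      rw [Set.mem_ofPred_eq, h1, sub_self, mul_zero, add_zero] at hx
      exact h2 hx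
    rw [this]; simp
  · have hD : (p.1.2 : ℝ) - p.2.2 ≠ 0 := by
      rw [sub_ne_zero]
      exact_mod_cast h1
    obtain ⟨D, hDe⟩ : ∃ D : ℝ, D = (p.1.2 : ℝ) - p.2.2 := ⟨_, rfl⟩
    obtain ⟨A, hAe⟩ : ∃ A : ℝ, A = (p.1.1 : ℝ) - p.2.1 := ⟨_, rfl⟩
    rw [← hDe] at hD ⊢
    have hD0 : 0 < |D| := abs_pos.2 hD
    have hsub : Set.Icc 0 L ∩ Tp p ⊆ Set.Icc (-A / D - 1 / |D|) (-A / D + 1 / |D|) := by
      rintro x ⟨_, hx⟩
      unfold Tp at hx
      rw [Set.mem_ofPred_eq, ← hDe, ← hAe] at hx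
      have h3 : |x - -A / D| ≤ 1 / |D| := by
        rw [le_div_iff₀ hD0, ← abs_mul]
        have : (x - -A / D) * D = A + x * D := by field_simp; ring
        rw [this]
        exact hx
      rw [abs_le] at h3
      constructor <;> linarith [h3.1, h3.2]
    calc volume.real (Set.Icc 0 L ∩ Tp p) ≤ volume.real (Set.Icc (-A / D - 1 / |D|) (-A / D + 1 / |D|)) :=
          measureReal_mono hsub (by rw [Real.volume_Icc]; exact ENNReal.ofReal_ne_top)
      _ = 2 / |D| := by
        rw [Real.volume_real_Icc_of_le (by have : 0 < 1 / |D| := by positivity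
                                           linarith)]
        ring
  · have : Set.Icc 0 L ∩ Tp p = ∅ := by
      rw [Set.eq_empty_iff_forall_notMem]
      rintro x ⟨hx0, hx⟩
      unfold Tp at hx
      rw [Set.mem_ofPred_eq] at hx
      apply h2
      obtain ⟨D, hDe⟩ : ∃ D : ℝ, D = (p.1.2 : ℝ) - p.2.2 := ⟨_, rfl⟩
      obtain ⟨A, hAe⟩ : ∃ A : ℝ, A = (p.1.1 : ℝ) - p.2.1 := ⟨_, rfl⟩
      rw [← hDe, ← hAe] at hx ⊢
      have h3 : |A| ≤ |A + x * D| + |x * D| := by
        have := abs_sub_abs_le_abs_sub A (-(x * D))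
        rw [sub_neg_eq_add, abs_neg] at this
        linarith
      rw [abs_mul x D, abs_of_nonneg hx0.1] at h3
      have h4 : x * |D| ≤ L * |D| := mul_le_mul_of_nonneg_right hx0.2 (abs_nonneg _)
      linarith
    rw [this]; simp

open Classical in
theorem energy_sum (S B : Finset ℕ) (g : ℕ) (hg : 1 ≤ g) (hs : ∀ s ∈ S, ∀ s' ∈ S, s < s' → s + g ≤ s') (N : ℕ)
    (hB : ∀ b ∈ B, b ≤ N) (L : ℝ) (hL : 0 ≤ L) :
    ∑ p ∈ (S ×ˢ B) ×ˢ (S ×ˢ B), volume.real (Set.Icc 0 L ∩ Tp p) ≤
      (S.card : ℝ) * B.card * (4 * L + 8 * (1 + Real.log N) + 4 * (1 + L) * (B.card / g)) := by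
  have hg0 : (0 : ℝ) < g := by exact_mod_cast hg
  have hg1 : (1 : ℝ) ≤ g := by exact_mod_cast hg
  have hone : ∀ q ∈ S ×ˢ B, ∑ r ∈ S ×ˢ B, volume.real (Set.Icc 0 L ∩ Tp (q, r)) ≤
      4 * L + 8 * (1 + Real.log N) + 4 * (1 + L) * (B.card / g) := by
    rintro ⟨s, b⟩ hq
    rw [mem_product] at hq
    simp only at hq
    calc ∑ r ∈ S ×ˢ B, volume.real (Set.Icc 0 L ∩ Tp ((s, b), r))
        ≤ ∑ r ∈ S ×ˢ B, (if b = r.2 then (if |(s : ℝ) - r.1| ≤ 1 then L else 0) else
      (if |(s : ℝ) - r.1| ≤ 1 + L * |(b : ℝ) - r.2| then 2 / |(b : ℝ) - r.2| else 0)) :=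
          sum_le_sum fun r _ => Tp_meas ((s, b), r) L hL
      _ = ∑ b' ∈ B, ∑ s' ∈ S, (if b = b' then (if |(s : ℝ) - s'| ≤ 1 then L else 0) else
      (if |(s : ℝ) - s'| ≤ 1 + L * |(b : ℝ) - b'| then 2 / |(b : ℝ) - b'| else 0)) := by
          rw [sum_product_right]
      _ = ∑ s' ∈ S, (if |(s : ℝ) - s'| ≤ 1 then L else 0) + ∑ b' ∈ B.erase b, ∑ s' ∈ S,
          (if |(s : ℝ) - s'| ≤ 1 + L * |(b : ℝ) - b'| then 2 / |(b : ℝ) - b'| else 0) := by
          rw [← add_sum_erase B _ hq.2]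
          congr 1
          · simp
          · apply sum_congr rfl
            intro b' hb'
            rw [mem_erase] at hb'
            apply sum_congr rfl
            intro s' _
            rw [if_neg (fun h => hb'.1 h.symm)]
      _ ≤ 4 * L + ∑ b' ∈ B.erase b, (4 * (1 / |(b : ℝ) - b'|) + 4 * (1 + L) / g) := by
          apply add_le_add
          · have h1 := count_sep S g hg hs s 1 zero_le_one
            rw [← sum_filter, sum_const, nsmul_eq_mul]
            have h2 : 2 * 1 / (g : ℝ) ≤ 2 := by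
              rw [div_le_iff₀ hg0]; linarith
            nlinarith
          · apply sum_le_sum
            intro b' hb'
            rw [mem_erase] at hb'
            have hD : (1 : ℝ) ≤ |(b : ℝ) - b'| := by
              have h3 : (b : ℤ) - b' ≠ 0 := by
                rw [sub_ne_zero]
                exact_mod_cast (Ne.symm hb'.1)
              have h4 := Int.one_le_abs h3
              have h5 : ((1 : ℤ) : ℝ) ≤ ((|(b : ℤ) - b'| : ℤ) : ℝ) := by exact_mod_cast h4
              push_cast at h5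
              exact h5
            obtain ⟨D, hDe⟩ : ∃ D : ℝ, D = |(b : ℝ) - b'| := ⟨_, rfl⟩
            rw [← hDe] at hD ⊢
            have hD0 : 0 < D := by linarith
            have h1 := count_sep S g hg hs s (1 + L * D) (by positivity)
            rw [← sum_filter, sum_const, nsmul_eq_mul]
            calc ((S.filter (fun s' : ℕ => |(s : ℝ) - s'| ≤ 1 + L * D)).card : ℝ) * (2 / D)
                ≤ (2 * (1 + L * D) / g + 2) * (2 / D) := mul_le_mul_of_nonneg_right h1 (by positivity)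
              _ = 4 * (1 / D) + 4 * (1 / D + L) / g := by field_simp; ring
              _ ≤ _ := by
                have h6 : 1 / D ≤ 1 := by rw [div_le_one hD0]; exact hD
                gcongr
      _ ≤ _ := by
          rw [sum_add_distrib, ← mul_sum, sum_const, nsmul_eq_mul]
          have h1 := inv_sum B N hB b (hB b hq.2)
          have h2 : ((B.erase b).card : ℝ) ≤ B.card := by exact_mod_cast card_le_card (erase_subset _ _)
          have h3 : ((B.erase b).card : ℝ) * (4 * (1 + L) / g) ≤ 4 * (1 + L) * (B.card / g) := by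
            calc ((B.erase b).card : ℝ) * (4 * (1 + L) / g) ≤ (B.card : ℝ) * (4 * (1 + L) / g) :=
                  mul_le_mul_of_nonneg_right h2 (by positivity)
              _ = _ := by ring
          linarith
  rw [sum_product]
  refine (sum_le_sum hone).trans (le_of_eq ?_)
  rw [sum_const, nsmul_eq_mul, card_product]
  push_cast
  ring

theorem energy_meas (S B : Finset ℕ) (g : ℕ) (hg : 1 ≤ g) (hs : ∀ s ∈ S, ∀ s' ∈ S, s < s' → s + g ≤ s') (N : ℕ)
    (hB : ∀ b ∈ B, b ≤ N) (L : ℝ) (hL : 0 ≤ L) (l : ℝ) (hl : 0 < l) :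
    volume {x | x ∈ Set.Icc 0 L ∧ l ≤ EnD S B x} ≤
      ENNReal.ofReal (((S.card : ℝ) * B.card * (4 * L + 8 * (1 + Real.log N) + 4 * (1 + L) * (B.card / g))) / l) := by
  classical
  have h1 := markov ((S ×ˢ B) ×ˢ (S ×ˢ B)) Tp (Set.Icc 0 L) measurableSet_Icc
    (by rw [Real.volume_Icc]; exact ENNReal.ofReal_ne_top) (fun p _ => (Tp_closed p).measurableSet) l hl
    (fun x => EnD S B x) (by
      intro x
      unfold EnD
      rw [card_filter]
      push_cast
      apply sum_congr rfl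
      intro p _
      by_cases h : x ∈ Tp p
      · rw [if_pos h, Set.indicator_of_mem h]
      · rw [if_neg h, Set.indicator_of_notMem h])
  refine h1.trans (ENNReal.ofReal_le_ofReal ?_)
  exact div_le_div_of_nonneg_right (energy_sum S B g hg hs N hB L hL) hl.le

end Pool.Agent.Zk40.D
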