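import Pool.Agent.Zk40.D.Wey
import Pool.Agent.Zk40.V.Win

/-!
Dilated sets in Waring's problem: one scale.
-/

namespace Pool.Agent.Zk40.D

open Finset Filter Topology MeasureTheory
open Pool.Agent.Zk40.W (ES ES_mul ES_triv window)
open Pool.Agent.Zk40.V (many_z pow_up')

/-- the level of the major arcs -/
noncomputable def Tl (ρ₀ : ℝ) (m : ℕ) (P : ℕ) : ℕ := ⌊(P : ℝ) ^ ρ₀⌋₊ ^ (m + 1)

lemma Tl_bd (ρ₀ ρ : ℝ) (m : ℕ) (hρ₀ : 0 < ρ₀) (hρ : ρ₀ * (m + 1) = ρ) :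
    ∀ᶠ P : ℕ in atTop, 1 ≤ Tl ρ₀ m P ∧ (Tl ρ₀ m P : ℝ) ≤ (P : ℝ) ^ ρ := by
  filter_upwards [eventually_ge_atTop 1] with P hP
  have hPr : (1 : ℝ) ≤ P := by exact_mod_cast hP
  have h1 : 1 ≤ ⌊(P : ℝ) ^ ρ₀⌋₊ := Nat.le_floor (by exact_mod_cast Real.one_le_rpow hPr hρ₀.le)
  refine ⟨Nat.one_le_pow _ _ h1, ?_⟩
  unfold Tl
  push_cast
  calc (⌊(P : ℝ) ^ ρ₀⌋₊ : ℝ) ^ (m + 1) ≤ ((P : ℝ) ^ ρ₀) ^ (m + 1) :=
        pow_le_pow_left₀ (Nat.cast_nonneg _) (Nat.floor_le (by positivity)) _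
    _ = (P : ℝ) ^ ρ := by
      rw [← Real.rpow_natCast, ← Real.rpow_mul (by linarith), ← hρ]
      push_cast
      rfl

/-- the values -/
noncomputable def Vl (x : ℝ) (p : ℕ × ℕ) : ℕ := p.1 + ⌊x * p.2⌋₊

theorem one_scale (d : ℕ) (hd : 1 ≤ d) (u : ℕ) (C c : ℝ) (hC : 1 ≤ C) (hc : 0 < c) (S : ℕ → Finset ℕ) (g : ℕ → ℕ)
    (hS : ∀ᶠ P : ℕ in atTop, Sep d (u + 1) C c P (S P) (g P)) (B : Set ℕ) (γ : ℝ)
    (hB : ∀ᶠ N : ℕ in atTop, (N : ℝ) ^ γ ≤ ((Bf B N).card : ℝ))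
    (c' m : ℕ) (hwey : ∀ (M R : ℕ) (β : ℝ), 1 ≤ M → 1 ≤ R →
      (M : ℝ) / R < ‖ES (Ioc M (4 * M)) (fun z => z ^ (d + 1)) β‖ →
      ∃ (q : ℕ) (b : ℤ), 1 ≤ q ∧ (q : ℝ) ≤ c' * (R : ℝ) ^ m ∧ |(q : ℝ) * β - b| ≤ c' * (R : ℝ) ^ m / (M : ℝ) ^ (d + 1))
    (ρ₀ ρ : ℝ) (hρ₀ : 0 < ρ₀) (hρ : ρ₀ * (m + 1) = ρ) (hρ2 : ρ ≤ 1 / 8) (x : ℝ) (hx : 0 < x)
    (hE : ∀ᶠ j : ℕ in atTop, EnD (S (2 ^ j)) (Bf B ((2 ^ j) ^ (d + 1))) x ≤
      (((S (2 ^ j)).card : ℝ) * (Bf B ((2 ^ j) ^ (d + 1))).card) ^ 2 * ((2 ^ j : ℕ) : ℝ) ^ (-((d : ℝ) + 1) + ρ₀ / 2))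
    (hG : ∀ᶠ j : ℕ in atTop, ∀ (q : ℕ) (a : ℤ) (t : ℝ), 1 ≤ q → q ≤ Tl ρ₀ m (2 ^ j) → a ≠ 0 →
      |a| ≤ ((129 * Tl ρ₀ m (2 ^ j) ^ 10 : ℕ) : ℤ) → |t - (a : ℝ) / q| ≤ Tl ρ₀ m (2 ^ j) / ((2 ^ j : ℕ) : ℝ) ^ (d + 1) →
      ‖Gs (Bf B ((2 ^ j) ^ (d + 1))) (t * x)‖ ≤ 2 * ((Bf B ((2 ^ j) ^ (d + 1))).card : ℝ) / (Tl ρ₀ m (2 ^ j) : ℝ) ^ 12) :
    ∃ C₁ : ℕ, 1 ≤ C₁ ∧ ∀ᶠ j : ℕ in atTop, ∀ N : ℕ, (2 * (C₁ * 2 ^ j)) ^ (d + 1) ≤ N → N < (4 * (C₁ * 2 ^ j)) ^ (d + 1) →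
      ∃ s s' b b' z : ℕ, IsSum (d + 1) (u + 1) s ∧ IsSum (d + 1) (u + 1) s' ∧ b ∈ B ∧ b' ∈ B ∧ 1 ≤ z ∧
        s + s' + z ^ (d + 1) + ⌊x * b⌋₊ + ⌊x * b'⌋₊ = N := by
  obtain ⟨C₁, hC₁⟩ : ∃ C₁ : ℕ, C₁ = ⌈2 * (C + x)⌉₊ := ⟨_, rfl⟩
  have hC₁r : 2 * (C + x) ≤ C₁ := by rw [hC₁]; exact Nat.le_ceil _
  have hC₁1 : (1 : ℝ) ≤ C₁ := by linarith
  have hC₁n : 1 ≤ C₁ := by exact_mod_cast hC₁1
  refine ⟨C₁, hC₁n, ?_⟩
  obtain ⟨D₀, hD₀⟩ : ∃ D₀ : ℝ, D₀ = ((d : ℝ) + 1) * (5 * (C₁ : ℝ)) ^ d := ⟨_, rfl⟩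
  have hD₀1 : 1 ≤ D₀ := by
    rw [hD₀]
    have h1 : (1 : ℝ) ≤ (5 * (C₁ : ℝ)) ^ d := one_le_pow₀ (by linarith)
    have h2 : (1 : ℝ) ≤ (d : ℝ) + 1 := by linarith [(Nat.cast_nonneg d : (0 : ℝ) ≤ d)]
    exact one_le_mul_of_one_le_of_one_le h2 h1
  have ev1 := two_tendN.eventually hS
  have ev2 := (two_pow_tend d).eventually hB
  have ev3 := two_tendN.eventually (Tl_bd ρ₀ ρ m hρ₀ hρ)
  have ev4 : ∀ᶠ j : ℕ in atTop, 4 * D₀ ≤ ((2 ^ j : ℕ) : ℝ) ^ ((1 : ℝ) / 2) :=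
    ((tendsto_rpow_atTop (by norm_num)).comp two_tend).eventually_ge_atTop _
  have ev5 : ∀ᶠ j : ℕ in atTop, 2 * ((c' : ℝ) + 1) ≤ ((2 ^ j : ℕ) : ℝ) ^ ρ₀ :=
    ((tendsto_rpow_atTop hρ₀).comp two_tend).eventually_ge_atTop _
  have ev6 : ∀ᶠ j : ℕ in atTop, (12000000 : ℝ) * D₀ * C₁ ≤ ((2 ^ j : ℕ) : ℝ) ^ (ρ₀ / 2) / 2 := by
    filter_upwards [((tendsto_rpow_atTop (show 0 < ρ₀ / 2 by positivity)).comp two_tend).eventually_ge_atTop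
      (2 * ((12000000 : ℝ) * D₀ * C₁))] with j hj
    simp only [Function.comp] at hj
    linarith
  have ev7 : ∀ᶠ j : ℕ in atTop, 4 ≤ ((2 ^ j : ℕ) : ℝ) := two_tend.eventually_ge_atTop _
  filter_upwards [ev1, ev2, ev3, ev4, ev5, ev6, ev7, hE, hG] with j e1 e2 e3 e4 e5 e6 e7 e8 e9 N hN1 hN2
  obtain ⟨P, hP⟩ : ∃ P : ℕ, P = 2 ^ j := ⟨_, rfl⟩
  rw [← hP] at e1 e2 e3 e4 e5 e6 e7 e8 e9 hN1 hN2
  have hP1 : 1 ≤ P := by rw [hP]; exact Nat.one_le_two_pow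
  have hPr : (1 : ℝ) ≤ P := by exact_mod_cast hP1
  have hP0 : (0 : ℝ) < P := by linarith
  obtain ⟨T, hT⟩ : ∃ T : ℕ, T = Tl ρ₀ m P := ⟨_, rfl⟩
  rw [← hT] at e3 e9
  obtain ⟨hT1, hTρ⟩ := e3
  have hTr : (1 : ℝ) ≤ T := by exact_mod_cast hT1
  have hT0 : (0 : ℝ) < T := by linarith
  obtain ⟨R, hR⟩ : ∃ R : ℕ, R = ⌊(P : ℝ) ^ ρ₀⌋₊ := ⟨_, rfl⟩
  have hTR : T = R ^ (m + 1) := by rw [hT, hR]; rfl
  have hPρ1 : 1 ≤ (P : ℝ) ^ ρ₀ := Real.one_le_rpow hPr hρ₀.le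
  have hR1 : 1 ≤ R := by rw [hR]; exact Nat.le_floor (by exact_mod_cast hPρ1)
  have hRr : (1 : ℝ) ≤ R := by exact_mod_cast hR1
  have hR0 : (0 : ℝ) < R := by linarith
  have hRlow : (P : ℝ) ^ ρ₀ ≤ 2 * R := by
    have : (P : ℝ) ^ ρ₀ < R + 1 := by rw [hR]; exact Nat.lt_floor_add_one _
    linarith
  have hRT : (R : ℝ) ≤ T := by
    rw [hTR]
    push_cast
    exact le_self_pow₀ hRr (by omega)
  have hcR : (c' : ℝ) * (R : ℝ) ^ m ≤ T := by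
    rw [hTR]
    push_cast
    rw [pow_succ, mul_comm]
    apply mul_le_mul_of_nonneg_left _ (by positivity)
    linarith
  obtain ⟨Bp, hBp⟩ : ∃ Bp : Finset ℕ, Bp = Bf B (P ^ (d + 1)) := ⟨_, rfl⟩
  rw [← hBp] at e2 e8 e9
  have hBle : ∀ b ∈ Bp, b ≤ P ^ (d + 1) := by rw [hBp]; exact Bf_le B _
  have hBmem : ∀ b ∈ Bp, b ∈ B := by
    classical
    intro b hb
    rw [hBp] at hb
    exact (mem_filter.1 hb).2
  obtain ⟨Sp, hSp⟩ : ∃ Sp : Finset ℕ, Sp = S P := ⟨_, rfl⟩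
  rw [← hSp] at e1 e8
  have hPk : (0 : ℝ) < (P : ℝ) ^ (d + 1) := by positivity
  have hb0 : (0 : ℝ) < (Bp.card : ℝ) := lt_of_lt_of_le (by positivity) e2
  have hs0 : (0 : ℝ) < (Sp.card : ℝ) := by
    by_contra hcon
    push Not at hcon
    have h3 : (0 : ℝ) ≤ (g P : ℝ) := Nat.cast_nonneg _
    have : (Sp.card : ℝ) * (g P : ℝ) ≤ 0 := mul_nonpos_of_nonpos_of_nonneg hcon h3
    have h2 : 0 < c * (P : ℝ) ^ (d + 1) := by positivity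
    linarith [e1.low]
  obtain ⟨M, hM⟩ : ∃ M : ℕ, M = C₁ * P := ⟨_, rfl⟩
  rw [← hM] at hN1 hN2
  have hMr : (M : ℝ) = C₁ * P := by rw [hM]; push_cast; rfl
  have hM1 : 1 ≤ M := by rw [hM]; exact Nat.mul_pos hC₁n hP1
  have hMr1 : (1 : ℝ) ≤ M := by exact_mod_cast hM1
  have hMr0 : (0 : ℝ) < M := by linarith
  have hPM : (P : ℝ) ≤ M := by rw [hMr]; exact le_mul_of_one_le_left hP0.le hC₁1
  -- the window
  have hT2 : (T : ℝ) ^ 2 ≤ (P : ℝ) ^ ((1 : ℝ) / 4) := by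
    calc (T : ℝ) ^ 2 ≤ ((P : ℝ) ^ ρ) ^ 2 := pow_le_pow_left₀ hT0.le hTρ 2
      _ = (P : ℝ) ^ (ρ * 2) := by rw [← Real.rpow_natCast, ← Real.rpow_mul hP0.le]; norm_num
      _ ≤ _ := Real.rpow_le_rpow_of_exponent_le hPr (by linarith)
  have hP4 : (P : ℝ) ^ ((1 : ℝ) / 4) ≤ (P : ℝ) ^ ((1 : ℝ) / 2) := Real.rpow_le_rpow_of_exponent_le hPr (by norm_num)
  have hP12 : (P : ℝ) ^ ((1 : ℝ) / 2) * (P : ℝ) ^ ((1 : ℝ) / 2) = P := by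
    rw [← Real.rpow_add hP0]
    norm_num
  have hT2P : 4 * D₀ * (T : ℝ) ^ 2 ≤ P := by
    calc 4 * D₀ * (T : ℝ) ^ 2 ≤ (P : ℝ) ^ ((1 : ℝ) / 2) * (P : ℝ) ^ ((1 : ℝ) / 2) :=
          mul_le_mul e4 (hT2.trans hP4) (by positivity) (by positivity)
      _ = P := hP12
  obtain ⟨W, hW⟩ : ∃ W : ℕ, W = ⌊(P : ℝ) ^ (d + 1) / (T : ℝ) ^ 2⌋₊ := ⟨_, rfl⟩
  have hWup : (W : ℝ) ≤ (P : ℝ) ^ (d + 1) / (T : ℝ) ^ 2 := by rw [hW]; exact Nat.floor_le (by positivity)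
  have hT21 : (1 : ℝ) ≤ (T : ℝ) ^ 2 := one_le_pow₀ hTr
  have hPle : (P : ℝ) ≤ (P : ℝ) ^ (d + 1) := le_self_pow₀ hPr (by omega)
  have h4DT : (T : ℝ) ^ 2 ≤ D₀ * (T : ℝ) ^ 2 := le_mul_of_one_le_left (by positivity) hD₀1
  have hone : 1 ≤ (P : ℝ) ^ (d + 1) / (T : ℝ) ^ 2 := by
    rw [le_div_iff₀ (by positivity)]
    linarith only [h4DT, hT2P, hPle, hT21]
  have hWlow : (P : ℝ) ^ (d + 1) / (T : ℝ) ^ 2 ≤ 2 * W := by
    have h1 : (P : ℝ) ^ (d + 1) / (T : ℝ) ^ 2 < W + 1 := by rw [hW]; exact Nat.lt_floor_add_one _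
    have h2 : 1 ≤ W := by rw [hW]; exact Nat.le_floor (by exact_mod_cast hone)
    have h3 : (1 : ℝ) ≤ W := by exact_mod_cast h2
    linarith
  have hW1 : 1 ≤ W := by rw [hW]; exact Nat.le_floor (by exact_mod_cast hone)
  have hW0 : (0 : ℝ) < W := by exact_mod_cast hW1
  have hWP : (W : ℝ) ≤ (P : ℝ) ^ (d + 1) := hWup.trans (div_le_self hPk.le hT21)
  -- the derivative
  obtain ⟨D, hD⟩ : ∃ D : ℝ, D = ((d : ℝ) + 1) * (5 * (M : ℝ)) ^ d := ⟨_, rfl⟩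
  have hDD : D = D₀ * (P : ℝ) ^ d := by rw [hD, hD₀, hMr, ← mul_assoc, mul_pow]; ring
  have hPd : (1 : ℝ) ≤ (P : ℝ) ^ d := one_le_pow₀ hPr
  have hD0 : 0 < D := by rw [hDD]; positivity
  have h2DW : 2 * D ≤ W := by
    have h1 : 4 * D ≤ (P : ℝ) ^ (d + 1) / (T : ℝ) ^ 2 := by
      rw [le_div_iff₀ (by positivity), hDD]
      calc 4 * (D₀ * (P : ℝ) ^ d) * (T : ℝ) ^ 2 = (4 * D₀ * (T : ℝ) ^ 2) * (P : ℝ) ^ d := by ring
        _ ≤ P * (P : ℝ) ^ d := mul_le_mul_of_nonneg_right hT2P (by positivity)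
        _ = _ := by rw [pow_succ]; ring
    linarith
  have hWMD : (W : ℝ) ≤ M * D := by
    refine hWP.trans ?_
    rw [hDD, pow_succ]
    calc (P : ℝ) ^ d * P ≤ (D₀ * (P : ℝ) ^ d) * M := by
          apply mul_le_mul _ hPM hP0.le (by positivity)
          exact le_mul_of_one_le_left (by positivity) hD₀1
      _ = _ := by ring
  -- many values
  obtain ⟨Ys, hYs⟩ : ∃ Ys : Finset (ℕ × ℕ), Ys = Sp ×ˢ Bp := ⟨_, rfl⟩
  have hVup : ∀ y ∈ Ys, (Vl x y : ℝ) ≤ (C + x) * (P : ℝ) ^ (d + 1) := by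
    intro y hy
    rw [hYs, mem_product] at hy
    unfold Vl
    push_cast
    have h1 := e1.up y.1 hy.1
    have h2 : (⌊x * (y.2 : ℝ)⌋₊ : ℝ) ≤ x * (P : ℝ) ^ (d + 1) := by
      refine (Nat.floor_le (by positivity)).trans ?_
      apply mul_le_mul_of_nonneg_left _ hx.le
      have := hBle y.2 hy.2
      exact_mod_cast this
    linarith
  have hMk : 2 * ((C + x) * (P : ℝ) ^ (d + 1)) ≤ (M : ℝ) ^ (d + 1) := by
    rw [hMr, mul_pow, ← mul_assoc]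
    apply mul_le_mul_of_nonneg_right _ hPk.le
    exact hC₁r.trans (le_self_pow₀ hC₁1 (by omega))
  have hN1r : (2 * (M : ℝ)) ^ (d + 1) ≤ N := by exact_mod_cast hN1
  have hN2r : (N : ℝ) < (4 * (M : ℝ)) ^ (d + 1) := by exact_mod_cast hN2
  have h4M : 4 * (M : ℝ) ^ (d + 1) ≤ (2 * (M : ℝ)) ^ (d + 1) := by
    rw [mul_pow]
    apply mul_le_mul_of_nonneg_right _ (by positivity)
    calc (4 : ℝ) = 2 ^ 2 := by norm_num
      _ ≤ _ := pow_le_pow_right₀ (by norm_num) (by omega)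
  have hPMk : (P : ℝ) ^ (d + 1) ≤ (M : ℝ) ^ (d + 1) := pow_le_pow_left₀ hP0.le hPM _
  have hw0 : (fun z : ℕ => z ^ (d + 1)) 0 = 0 := by simp
  have hmany : ∀ y ∈ Ys, ∀ y' ∈ Ys, ∀ z₂ ∈ ({0} : Finset ℕ), (W : ℝ) / (2 * D) ≤
      ((((Ioc M (4 * M)).filter (fun z => ((N : ℤ) - Vl x y - Vl x y' - (fun z : ℕ => z ^ (d + 1)) z₂ : ℤ) - W <
        (((fun z : ℕ => z ^ (d + 1)) z : ℕ) : ℤ) ∧
      (((fun z : ℕ => z ^ (d + 1)) z : ℕ) : ℤ) ≤ (N : ℤ) - Vl x y - Vl x y' - (fun z : ℕ => z ^ (d + 1)) z₂)).card : ℕ) : ℝ) := by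
    intro y hy y' hy' z₂ hz₂
    rw [mem_singleton] at hz₂
    subst hz₂
    have g1 := hVup y hy
    have g2 := hVup y' hy'
    have g3 : (0 : ℝ) ≤ Vl x y := Nat.cast_nonneg _
    have g4 : (0 : ℝ) ≤ Vl x y' := Nat.cast_nonneg _
    apply many_z (fun z => (z : ℝ) ^ (d + 1)) (fun z : ℕ => z ^ (d + 1)) (fun z => by
      have : ((z : ℝ) ^ (d + 1)) = ((z ^ (d + 1) : ℕ) : ℝ) := by push_cast; rfl
      simp only [this, Nat.floor_natCast]) M W hM1 hW1 _ D hD0 (fun z _ => by positivity) _ _ _ _ h2DW hWMD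
    · intro z _
      have := pow_gap d z (z + 1) 1
      rcases Nat.eq_zero_or_pos z with h | h
      · subst h; simp
      · have h5 := pow_gap d z (z + 1) 1 h (by omega)
        rw [one_pow, mul_one] at h5
        have h6 : z ^ (d + 1) + 1 ≤ (z + 1) ^ (d + 1) := by omega
        exact_mod_cast h6
    · intro z _ hz
      have h5 := pow_up' (z : ℝ) ((z + 1 : ℕ) : ℝ) (Nat.cast_nonneg _) (by push_cast; linarith) d
      refine h5.trans ?_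
      have h6 : ((z + 1 : ℕ) : ℝ) - z = 1 := by push_cast; ring
      rw [h6, one_mul, hD]
      apply mul_le_mul_of_nonneg_left _ (by positivity)
      apply pow_le_pow_left₀ (Nat.cast_nonneg _)
      have h7 : z + 1 ≤ 5 * M := by omega
      exact_mod_cast h7
    · push_cast
      simp only [ne_eq, Nat.add_eq_zero_iff, one_ne_zero, and_false, not_false_eq_true, zero_pow, sub_zero]
      linarith
    · push_cast
      simp only [ne_eq, Nat.add_eq_zero_iff, one_ne_zero, and_false, not_false_eq_true, zero_pow, sub_zero]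
      linarith
  have hwin := window Ys (Vl x) (Ioc M (4 * M)) {0} (fun z : ℕ => z ^ (d + 1)) W N _ hmany
  -- the circle method
  have hES0 : ∀ β : ℝ, ‖ES ({0} : Finset ℕ) (fun z : ℕ => z ^ (d + 1)) β‖ = 1 := by
    intro β
    unfold ES
    rw [sum_singleton]
    exact Pool.Agent.H469R2.NK.norm_e _
  have hKB : ∀ β : ℝ, ‖ES (Ioc M (4 * M)) (fun z : ℕ => z ^ (d + 1)) β‖ * ‖ES ({0} : Finset ℕ) (fun z : ℕ => z ^ (d + 1)) β‖ ≤ 3 * M := by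
    intro β
    rw [hES0, mul_one]
    refine (ES_triv _ _ _).trans ?_
    rw [Nat.card_Ioc, show 4 * M - M = 3 * M by omega]
    push_cast
    exact le_rfl
  obtain ⟨δ, hδ⟩ : ∃ δ : ℝ, δ = T / (P : ℝ) ^ (d + 1) := ⟨_, rfl⟩
  have hδ0 : 0 < δ := by rw [hδ]; positivity
  have hδ4 : δ < 1 / 2 := by
    rw [hδ, div_lt_iff₀ hPk]
    have h1 : (T : ℝ) ≤ (T : ℝ) ^ 2 := le_self_pow₀ hTr (by norm_num)
    linarith only [h1, h4DT, hT2P, hPle, hT21]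
  have htri : ∀ β : ℝ, |β| ≤ 1 / 2 →
      ‖ES (Ioc M (4 * M)) (fun z : ℕ => z ^ (d + 1)) β‖ * ‖ES ({0} : Finset ℕ) (fun z : ℕ => z ^ (d + 1)) β‖ ≤ M / R ∨ |β| ≤ δ ∨
      ∃ i ∈ (Icc 1 T) ×ˢ (Icc (-(T : ℤ)) T), |β - (fun i : ℕ × ℤ => (i.2 : ℝ) / i.1) i| ≤ δ ∧
        ‖ES Ys (Vl x) β‖ ≤ 282 * ((Sp.card : ℝ) * Bp.card) / (T : ℝ) ^ 3 := by
    intro β hβ
    rw [hES0, mul_one]
    by_cases hsm : ‖ES (Ioc M (4 * M)) (fun z : ℕ => z ^ (d + 1)) β‖ ≤ M / R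
    · exact Or.inl hsm
    right
    push Not at hsm
    obtain ⟨q, b, hq1, hq2, hqb⟩ := hwey M R β hM1 hR1 hsm
    have hq1r : (1 : ℝ) ≤ q := by exact_mod_cast hq1
    have hq0 : (0 : ℝ) < q := by linarith
    have hqT : q ≤ T := by exact_mod_cast hq2.trans hcR
    have hqb' : |(q : ℝ) * β - b| ≤ δ := by
      refine hqb.trans ?_
      rw [hδ]
      exact div_le_div₀ hT0.le hcR hPk hPMk
    have hβq : |β - (b : ℝ) / q| ≤ δ := by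
      have h1 : β - (b : ℝ) / q = ((q : ℝ) * β - b) / q := by field_simp
      rw [h1, abs_div, Nat.abs_cast]
      exact (div_le_self (abs_nonneg _) hq1r).trans hqb'
    by_cases hb : b = 0
    · left
      rw [hb, Int.cast_zero, zero_div, sub_zero] at hβq
      exact hβq
    right
    have hbq : |b| < (q : ℤ) := by
      have h1 : |(b : ℝ)| ≤ |(q : ℝ) * β| + |(q : ℝ) * β - b| := by
        have h2 : (b : ℝ) = (q : ℝ) * β - ((q : ℝ) * β - b) := by ring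
        calc |(b : ℝ)| = |(q : ℝ) * β - ((q : ℝ) * β - b)| := by rw [← h2]
          _ ≤ _ := abs_sub _ _
      rw [abs_mul, Nat.abs_cast] at h1
      have h3 : (q : ℝ) * |β| ≤ q * (1 / 2) := mul_le_mul_of_nonneg_left hβ hq0.le
      have h4 : |(b : ℝ)| < q := by linarith
      have h5 : ((|b| : ℤ) : ℝ) < ((q : ℤ) : ℝ) := by push_cast; exact h4
      exact_mod_cast h5
    have hqTi : (q : ℤ) ≤ T := by exact_mod_cast hqT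
    refine ⟨(q, b), ?_, hβq, ?_⟩
    · rw [mem_product, mem_Icc, mem_Icc]
      refine ⟨⟨hq1, hqT⟩, abs_le.1 (by show |b| ≤ (T : ℤ); omega)⟩
    · have hfac : ES Ys (Vl x) β = ES Sp (fun s => s) β * ES Bp (fun b => ⌊x * b⌋₊) β := by
        rw [ES_mul, hYs]
        rfl
      have hT10 : T ^ 3 ≤ 129 * T ^ 10 := by
        have : T ^ 3 ≤ T ^ 10 := Nat.pow_le_pow_right hT1 (by norm_num)
        omega
      have hfl := floor_bound Bp x hx.le T hT1 β _ (by linarith) rfl (by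
          intro k hk
          apply e9 q (b + k * q) (β + k) hq1 hqT
          · intro h
            have h1 : (q : ℤ) ∣ b := ⟨-k, by linarith⟩
            have := Int.eq_zero_of_abs_lt_dvd h1 hbq
            exact hb this
          · have h1 : |b + k * q| ≤ |b| + |k| * q := by
              refine (abs_add_le _ _).trans ?_
              rw [abs_mul, Nat.abs_cast]
            have h2 : |k| + 1 ≤ ((128 * T ^ 9 : ℕ) : ℤ) := hk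
            have h3 : (|k| + 1) * q ≤ ((128 * T ^ 9 : ℕ) : ℤ) * T :=
              mul_le_mul h2 hqTi (by positivity) (by positivity)
            have h4 : ((128 * T ^ 9 : ℕ) : ℤ) * T ≤ ((129 * T ^ 10 : ℕ) : ℤ) := by
              push_cast
              have : (0 : ℤ) ≤ (T : ℤ) ^ 10 := by positivity
              have h5 : (128 * (T : ℤ) ^ 9) * T = 128 * (T : ℤ) ^ 10 := by ring
              rw [h5]
              linarith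
            linarith
          · have h1 : β + (k : ℝ) - ((b + k * q : ℤ) : ℝ) / q = β - (b : ℝ) / q := by
              push_cast
              field_simp
              ring
            rw [h1, ← hδ]
            exact hβq) (by
          intro k hk0 hk
          have h1 := e9 1 k k le_rfl hT1 hk0 (by
            have : ((T ^ 3 : ℕ) : ℤ) ≤ ((129 * T ^ 10 : ℕ) : ℤ) := by exact_mod_cast hT10
            linarith) (by
            rw [Nat.cast_one, div_one, sub_self, abs_zero, ← hδ]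
            exact hδ0.le)
          exact h1)
      rw [hfac, norm_mul]
      calc ‖ES Sp (fun s => s) β‖ * ‖ES Bp (fun b => ⌊x * b⌋₊) β‖ ≤ (Sp.card : ℝ) * (282 * (Bp.card : ℝ) / (T : ℝ) ^ 3) :=
            mul_le_mul (ES_triv _ _ _) hfl (norm_nonneg _) (Nat.cast_nonneg _)
        _ = _ := by ring
  have hen : (((Ys ×ˢ Ys).filter (fun p => Vl x p.1 = Vl x p.2)).card : ℝ) ≤
      ((Sp.card : ℝ) * Bp.card) ^ 2 * (P : ℝ) ^ (-((d : ℝ) + 1) + ρ₀ / 2) := by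
    classical
    refine le_trans ?_ e8
    unfold EnD
    rw [hYs]
    have : ((Sp ×ˢ Bp) ×ˢ (Sp ×ˢ Bp)).filter (fun p => Vl x p.1 = Vl x p.2) ⊆
        ((Sp ×ˢ Bp) ×ˢ (Sp ×ˢ Bp)).filter (fun p => x ∈ Tp p) := by
      intro p hp
      rw [mem_filter] at hp ⊢
      refine ⟨hp.1, ?_⟩
      have h1 := hp.2
      unfold Vl at h1
      have h2 : (p.1.1 : ℝ) + (⌊x * (p.1.2 : ℝ)⌋₊ : ℝ) = (p.2.1 : ℝ) + (⌊x * (p.2.2 : ℝ)⌋₊ : ℝ) := by exact_mod_cast h1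
      have h3 := Nat.floor_le (show 0 ≤ x * (p.1.2 : ℝ) by positivity)
      have h4 := Nat.floor_le (show 0 ≤ x * (p.2.2 : ℝ) by positivity)
      have h5 := Nat.lt_floor_add_one (x * (p.1.2 : ℝ))
      have h6 := Nat.lt_floor_add_one (x * (p.2.2 : ℝ))
      unfold Tp
      rw [Set.mem_ofPred_eq, abs_le]
      constructor <;> linarith
    exact_mod_cast card_le_card this
  have hcir := circle2 Ys (Vl x) (Ioc M (4 * M)) {0} (fun z : ℕ => z ^ (d + 1)) (3 * M) (M / R)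
    (282 * ((Sp.card : ℝ) * Bp.card) / (T : ℝ) ^ 3) δ (by positivity) (by positivity) hδ0.le _
    (fun i : ℕ × ℤ => (i.2 : ℝ) / i.1) hKB htri _ hen W hW1 N
  obtain ⟨Yc, hYc⟩ : ∃ Yc : ℝ, Yc = (Sp.card : ℝ) * Bp.card := ⟨_, rfl⟩
  have hYc0 : 0 < Yc := by rw [hYc]; positivity
  have hYsc : (Ys.card : ℝ) = Yc := by rw [hYs, card_product, hYc]; push_cast; rfl
  rw [← hYc] at hcir
  rw [hYsc, card_singleton] at hwin
  set Rr : ℝ := (((((Ys ×ˢ Ys) ×ˢ ((Ioc M (4 * M)) ×ˢ ({0} : Finset ℕ))).filter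
    (fun p => (Vl x p.1.1 + Vl x p.1.2) + ((fun z : ℕ => z ^ (d + 1)) p.2.1 + (fun z : ℕ => z ^ (d + 1)) p.2.2) = N)).card : ℕ) : ℝ) with hRr
  -- main term
  have hmain : Yc ^ 2 / (2 * D) ≤ (1 / (W : ℝ)) * ∑ j ∈ range W, (((((Ys ×ˢ Ys) ×ˢ ((Ioc M (4 * M)) ×ˢ ({0} : Finset ℕ))).filter
      (fun p => (((Vl x p.1.1 + Vl x p.1.2) + ((fun z : ℕ => z ^ (d + 1)) p.2.1 + (fun z : ℕ => z ^ (d + 1)) p.2.2) : ℕ) : ℤ) =
        (N : ℤ) - j)).card : ℕ) : ℝ) := by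
    have h1 : Yc ^ 2 / (2 * D) = (1 / (W : ℝ)) * (Yc ^ 2 * ((1 : ℕ) : ℝ) * ((W : ℝ) / (2 * D))) := by
      push_cast
      field_simp
    rw [h1]
    exact mul_le_mul_of_nonneg_left hwin (by positivity)
  -- the error
  have hIcard : (((Icc 1 T) ×ˢ (Icc (-(T : ℤ)) T)).card : ℝ) ≤ 3 * (T : ℝ) ^ 2 := by
    rw [card_product, Nat.card_Icc, Int.card_Icc]
    have h1 : ((T : ℤ) + 1 - -(T : ℤ)).toNat = 2 * T + 1 := by omega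
    rw [h1, show T + 1 - 1 = T by omega]
    push_cast
    have h2 : (T : ℝ) ≤ (T : ℝ) ^ 2 := le_self_pow₀ hTr (by norm_num)
    have h3 : (T : ℝ) * (2 * T + 1) = 2 * (T : ℝ) ^ 2 + T := by ring
    rw [h3]
    linarith only [h2]
  have hPpow : (P : ℝ) ^ (-((d : ℝ) + 1) + ρ₀ / 2) = (P : ℝ) ^ (ρ₀ / 2) / (P : ℝ) ^ (d + 1) := by
    rw [Real.rpow_add hP0, Real.rpow_neg hP0.le, eq_div_iff hPk.ne']
    have h1 : (P : ℝ) ^ ((d : ℝ) + 1) = (P : ℝ) ^ (d + 1) := by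
      rw [← Real.rpow_natCast]; push_cast; rfl
    rw [h1]
    field_simp
  have hτ1 : 1 ≤ (P : ℝ) ^ (ρ₀ / 2) := Real.one_le_rpow hPr (by positivity)
  have hWδ : W * δ ≤ 1 / R := by
    calc W * δ ≤ (P : ℝ) ^ (d + 1) / (T : ℝ) ^ 2 * (T / (P : ℝ) ^ (d + 1)) := by rw [hδ]; gcongr
      _ = 1 / T := by field_simp
      _ ≤ 1 / R := one_div_le_one_div_of_le hR0 hRT
  have herr1 : (2 * (M / R) + 7 * W * δ * (3 * M)) * (Yc ^ 2 * (P : ℝ) ^ (-((d : ℝ) + 1) + ρ₀ / 2)) ≤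
      23 * (M / R) * (Yc ^ 2 * ((P : ℝ) ^ (ρ₀ / 2) / (P : ℝ) ^ (d + 1))) := by
    rw [hPpow]
    apply mul_le_mul_of_nonneg_right _ (by positivity)
    have h1 : 7 * W * δ * (3 * M) = 21 * M * (W * δ) := by ring
    have h2 : 21 * M * (W * δ) ≤ 21 * M * (1 / R) := mul_le_mul_of_nonneg_left hWδ (by positivity)
    have h3 : 21 * M * (1 / (R : ℝ)) = 21 * (M / R) := by ring
    rw [h1]
    linarith
  have herr2 : 4 * δ * (((Icc 1 T) ×ˢ (Icc (-(T : ℤ)) T)).card : ℝ) * ((282 * Yc / (T : ℝ) ^ 3) ^ 2 * (3 * M)) ≤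
      2900000 * (M / R) * (Yc ^ 2 * ((P : ℝ) ^ (ρ₀ / 2) / (P : ℝ) ^ (d + 1))) := by
    calc 4 * δ * (((Icc 1 T) ×ˢ (Icc (-(T : ℤ)) T)).card : ℝ) * ((282 * Yc / (T : ℝ) ^ 3) ^ 2 * (3 * M))
        ≤ 4 * δ * (3 * (T : ℝ) ^ 2) * ((282 * Yc / (T : ℝ) ^ 3) ^ 2 * (3 * M)) := by gcongr
      _ = 2862864 * (M * (1 / (T : ℝ) ^ 3)) * (Yc ^ 2 * (1 / (P : ℝ) ^ (d + 1))) := by
        rw [hδ]
        field_simp
        ring
      _ ≤ 2900000 * (M * (1 / R)) * (Yc ^ 2 * ((P : ℝ) ^ (ρ₀ / 2) / (P : ℝ) ^ (d + 1))) := by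
        have h1 : 1 / (T : ℝ) ^ 3 ≤ 1 / R :=
          one_div_le_one_div_of_le hR0 (hRT.trans (le_self_pow₀ hTr (by norm_num)))
        gcongr
        norm_num
      _ = _ := by ring
  have herr : 23 * (M / R) * (Yc ^ 2 * ((P : ℝ) ^ (ρ₀ / 2) / (P : ℝ) ^ (d + 1))) +
      2900000 * (M / R) * (Yc ^ 2 * ((P : ℝ) ^ (ρ₀ / 2) / (P : ℝ) ^ (d + 1))) ≤ Yc ^ 2 / (2 * D) / 2 := by
    have h1 : 23 * (M / R) * (Yc ^ 2 * ((P : ℝ) ^ (ρ₀ / 2) / (P : ℝ) ^ (d + 1))) +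
      2900000 * (M / R) * (Yc ^ 2 * ((P : ℝ) ^ (ρ₀ / 2) / (P : ℝ) ^ (d + 1))) =
      2900023 * C₁ * (Yc ^ 2 * ((P : ℝ) ^ (ρ₀ / 2) / R) * (P / (P : ℝ) ^ (d + 1))) := by
      rw [hMr]; ring
    have h2 : (P : ℝ) / (P : ℝ) ^ (d + 1) = 1 / (P : ℝ) ^ d := by
      rw [pow_succ]; field_simp
    have h3 : (P : ℝ) ^ (ρ₀ / 2) / R ≤ 1 / (((P : ℝ) ^ (ρ₀ / 2)) / 2) := by
      have h4 : (P : ℝ) ^ ρ₀ = (P : ℝ) ^ (ρ₀ / 2) * (P : ℝ) ^ (ρ₀ / 2) := by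
        rw [← Real.rpow_add hP0]; congr 1; ring
      rw [div_le_div_iff₀ hR0 (by positivity)]
      rw [h4] at hRlow
      linarith
    have h5 : 1 / (((P : ℝ) ^ (ρ₀ / 2)) / 2) ≤ 1 / (12000000 * D₀ * C₁) :=
      one_div_le_one_div_of_le (by positivity) e6
    rw [h1, h2]
    calc 2900023 * C₁ * (Yc ^ 2 * ((P : ℝ) ^ (ρ₀ / 2) / R) * (1 / (P : ℝ) ^ d))
        ≤ 2900023 * C₁ * (Yc ^ 2 * (1 / (12000000 * D₀ * C₁)) * (1 / (P : ℝ) ^ d)) := by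
          have := h3.trans h5
          gcongr
      _ = (2900023 / 12000000) * (Yc ^ 2 / (D₀ * (P : ℝ) ^ d)) := by
          field_simp
      _ ≤ (1 / 4) * (Yc ^ 2 / (D₀ * (P : ℝ) ^ d)) := by
          apply mul_le_mul_of_nonneg_right (by norm_num) (by positivity)
      _ = _ := by rw [hDD]; field_simp; norm_num
  have hpos : 0 < Yc ^ 2 / (2 * D) := by positivity
  have hRpos : 0 < Rr := by
    have := hmain.trans hcir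
    linarith
  have hne : ((((Ys ×ˢ Ys) ×ˢ ((Ioc M (4 * M)) ×ˢ ({0} : Finset ℕ))).filter
    (fun p => (Vl x p.1.1 + Vl x p.1.2) + ((fun z : ℕ => z ^ (d + 1)) p.2.1 + (fun z : ℕ => z ^ (d + 1)) p.2.2) = N))).Nonempty := by
    rw [← card_pos]
    rw [hRr] at hRpos
    exact_mod_cast hRpos
  obtain ⟨p, hp⟩ := hne
  rw [mem_filter, mem_product, mem_product, mem_product, mem_Ioc, mem_singleton, hYs, mem_product, mem_product] at hp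
  obtain ⟨⟨⟨⟨p1, p2⟩, ⟨p3, p4⟩⟩, ⟨p5, _⟩, p6⟩, hp⟩ := hp
  refine ⟨p.1.1.1, p.1.2.1, p.1.1.2, p.1.2.2, p.2.1, e1.sum _ p1, e1.sum _ p3, hBmem _ p2, hBmem _ p4, by omega, ?_⟩
  rw [p6] at hp
  unfold Vl at hp
  simp only [ne_eq, Nat.add_eq_zero_iff, one_ne_zero, and_false, not_false_eq_true, zero_pow, add_zero] at hp
  omega

end Pool.Agent.Zk40.D
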