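import Mathlib

/-!
Dilated sets in Waring's problem: well separated sets of sums of `k`-th powers.
-/

namespace Pool.Agent.Zk40.D

open Finset Filter Topology

/-- `n` is a sum of `u` `k`-th powers of positive integers -/
def IsSum (k u n : ℕ) : Prop := ∃ x : Fin u → ℕ, (∀ i, 1 ≤ x i) ∧ ∑ i, x i ^ k = n

/-- separated sets of sums -/
structure Sep (d u : ℕ) (C c : ℝ) (P : ℕ) (S : Finset ℕ) (g : ℕ) : Prop where
  sum : ∀ s ∈ S, IsSum (d + 1) u s
  up : ∀ s ∈ S, (s : ℝ) ≤ C * (P : ℝ) ^ (d + 1)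
  sep : ∀ s ∈ S, ∀ s' ∈ S, s < s' → s + g ≤ s'
  g1 : 1 ≤ g
  low : c * (P : ℝ) ^ (d + 1) ≤ (S.card : ℝ) * g
  gup : (g : ℝ) ≤ C * (P : ℝ) ^ (((d : ℝ) + 1) * (1 - 1 / ((d : ℝ) + 1)) ^ u)

lemma pow_gap (d x y P : ℕ) (hx : P ≤ x) (hxy : x < y) : x ^ (d + 1) + (d + 1) * P ^ d ≤ y ^ (d + 1) := by
  have h1 : ∀ d : ℕ, x ^ (d + 1) + (d + 1) * P ^ d ≤ (x + 1) ^ (d + 1) := by
    intro d
    induction d with
    | zero => simp
    | succ d ih =>
      have h2 : P ^ (d + 1) ≤ x ^ (d + 1) := Nat.pow_le_pow_left hx _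
      have h3 : P ^ (d + 1) = P ^ d * P := pow_succ _ _
      calc x ^ (d + 1 + 1) + (d + 1 + 1) * P ^ (d + 1) = x ^ (d + 1) * x + (d + 1) * P ^ d * P + P ^ (d + 1) := by
            rw [pow_succ x (d + 1), h3]; ring
        _ ≤ x ^ (d + 1) * x + (d + 1) * P ^ d * x + x ^ (d + 1) := by
            have := Nat.mul_le_mul_left ((d + 1) * P ^ d) hx
            omega
        _ ≤ (x ^ (d + 1) + (d + 1) * P ^ d) * (x + 1) := by nlinarith [Nat.zero_le ((d + 1) * P ^ d)]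
        _ ≤ (x + 1) ^ (d + 1) * (x + 1) := Nat.mul_le_mul_right _ ih
        _ = _ := (pow_succ _ _).symm
  exact (h1 d).trans (Nat.pow_le_pow_left hxy _)

lemma kap_pos (d : ℕ) (hd : 1 ≤ d) : 0 < 1 - 1 / ((d : ℝ) + 1) ∧ 1 - 1 / ((d : ℝ) + 1) < 1 ∧
    ((d : ℝ) + 1) * (1 - 1 / ((d : ℝ) + 1)) = d := by
  have h1 : (1 : ℝ) ≤ d := by exact_mod_cast hd
  have h2 : 0 < 1 / ((d : ℝ) + 1) := by positivity
  refine ⟨?_, by linarith, by field_simp; ring⟩
  rw [sub_pos, div_lt_one (by linarith)]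
  linarith

theorem exists_sep (d : ℕ) (hd : 1 ≤ d) (u : ℕ) : ∃ C c : ℝ, 1 ≤ C ∧ 0 < c ∧ ∀ᶠ P : ℕ in atTop,
    ∃ (S : Finset ℕ) (g : ℕ), Sep d (u + 1) C c P S g := by
  obtain ⟨hκ0, hκ1, hκd⟩ := kap_pos d hd
  obtain ⟨κ, hκ⟩ : ∃ κ : ℝ, κ = 1 - 1 / ((d : ℝ) + 1) := ⟨_, rfl⟩
  rw [← hκ] at hκ0 hκ1 hκd
  induction u with
  | zero =>
    refine ⟨2 ^ (d + 1), 1, one_le_pow₀ (by norm_num), one_pos, ?_⟩
    filter_upwards [eventually_ge_atTop 1] with P hP
    have hPr : (1 : ℝ) ≤ P := by exact_mod_cast hP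
    refine ⟨(Ioc P (2 * P)).image (· ^ (d + 1)), P ^ d, ?_, ?_, ?_, ?_, ?_, ?_⟩
    · intro s hs
      rw [mem_image] at hs
      obtain ⟨x, hx, rfl⟩ := hs
      rw [mem_Ioc] at hx
      exact ⟨fun _ => x, fun _ => by show 1 ≤ x; omega, by simp⟩
    · intro s hs
      rw [mem_image] at hs
      obtain ⟨x, hx, rfl⟩ := hs
      rw [mem_Ioc] at hx
      push_cast
      rw [← mul_pow]
      apply pow_le_pow_left₀ (Nat.cast_nonneg _)
      exact_mod_cast hx.2
    · intro s hs s' hs' hlt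
      rw [mem_image] at hs hs'
      obtain ⟨x, hx, rfl⟩ := hs
      obtain ⟨y, hy, rfl⟩ := hs'
      rw [mem_Ioc] at hx hy
      have h1 : x < y := lt_of_pow_lt_pow_left₀ _ (Nat.zero_le _) hlt
      have h2 := pow_gap d x y P hx.1.le h1
      have h3 : P ^ d ≤ (d + 1) * P ^ d := Nat.le_mul_of_pos_left _ (by omega)
      show x ^ (d + 1) + P ^ d ≤ y ^ (d + 1)
      omega
    · exact Nat.one_le_pow _ _ hP
    · rw [card_image_of_injective _ (Nat.pow_left_injective (by omega)), Nat.card_Ioc, show 2 * P - P = P by omega]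
      push_cast
      rw [one_mul, pow_succ, mul_comm]
    · rw [← hκ, zero_add, pow_one, hκd, Real.rpow_natCast]
      push_cast
      have : (1 : ℝ) ≤ 2 ^ (d + 1) := one_le_pow₀ (by norm_num)
      have h2 : (0 : ℝ) ≤ (P : ℝ) ^ d := by positivity
      nlinarith
  | succ u ih =>
    obtain ⟨C, c, hC, hc, hev⟩ := ih
    obtain ⟨A, hA⟩ : ∃ A : ℝ, A = 4 * C := ⟨_, rfl⟩
    have hA4 : 4 ≤ A := by rw [hA]; linarith
    have hA0 : 0 < A := by linarith
    have hnat : Tendsto (fun M : ℕ => (M : ℝ)) atTop atTop := tendsto_natCast_atTop_atTop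
    have ht : Tendsto (fun P : ℕ => (P : ℝ) ^ κ / A) atTop atTop :=
      ((tendsto_rpow_atTop hκ0).comp hnat).atTop_div_const hA0
    have hφ : Tendsto (fun P : ℕ => ⌊(P : ℝ) ^ κ / A⌋₊) atTop atTop := tendsto_nat_floor_atTop.comp ht
    refine ⟨2 ^ (d + 1) + C, c / (2 * A) ^ (d + 1), ?_, by positivity, ?_⟩
    · have : (1 : ℝ) ≤ 2 ^ (d + 1) := one_le_pow₀ (by norm_num)
      linarith
    filter_upwards [hφ.eventually hev, eventually_ge_atTop 1, ht.eventually_ge_atTop 1] with P h1 hP h2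
    have hPr : (1 : ℝ) ≤ P := by exact_mod_cast hP
    have hP0 : (0 : ℝ) < P := by linarith
    obtain ⟨P', hP'⟩ : ∃ P' : ℕ, P' = ⌊(P : ℝ) ^ κ / A⌋₊ := ⟨_, rfl⟩
    rw [← hP'] at h1
    obtain ⟨S, g, hS⟩ := h1
    have e1 : (P' : ℝ) ≤ (P : ℝ) ^ κ / A := by rw [hP']; exact Nat.floor_le (by positivity)
    have e2 : (P : ℝ) ^ κ / (2 * A) ≤ P' := by
      have h3 : (P : ℝ) ^ κ / A < P' + 1 := by rw [hP']; exact Nat.lt_floor_add_one _
      have h4 : 1 ≤ P' := by rw [hP']; exact Nat.le_floor (by exact_mod_cast h2)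
      have h5 : (1 : ℝ) ≤ P' := by exact_mod_cast h4
      have h6 : (P : ℝ) ^ κ / (2 * A) = ((P : ℝ) ^ κ / A) / 2 := by field_simp
      rw [h6]
      linarith
    have e3 : ((P : ℝ) ^ κ) ^ (d + 1) = (P : ℝ) ^ d := by
      rw [← Real.rpow_natCast, ← Real.rpow_mul hP0.le, ← Real.rpow_natCast]
      congr 1
      push_cast
      linarith
    have e4 : (P' : ℝ) ^ (d + 1) ≤ (P : ℝ) ^ d / A ^ (d + 1) := by
      calc (P' : ℝ) ^ (d + 1) ≤ ((P : ℝ) ^ κ / A) ^ (d + 1) := pow_le_pow_left₀ (Nat.cast_nonneg _) e1 _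
        _ = _ := by rw [div_pow, e3]
    have hAd : A ≤ A ^ (d + 1) := le_self_pow₀ (by linarith) (by omega)
    have hPd : (1 : ℝ) ≤ (P : ℝ) ^ d := one_le_pow₀ hPr
    have e5 : C * (P' : ℝ) ^ (d + 1) ≤ (P : ℝ) ^ d / 4 := by
      calc C * (P' : ℝ) ^ (d + 1) ≤ C * ((P : ℝ) ^ d / A ^ (d + 1)) := mul_le_mul_of_nonneg_left e4 (by linarith)
        _ ≤ C * ((P : ℝ) ^ d / A) := by gcongr
        _ = _ := by rw [hA]; field_simp
    have e6 : ∀ s ∈ S, 4 * s ≤ P ^ d := by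
      intro s hs
      have := (hS.up s hs).trans e5
      have h3 : 4 * (s : ℝ) ≤ (P : ℝ) ^ d := by linarith
      exact_mod_cast h3
    have hP'1 : (1 : ℝ) ≤ P' := by
      have h4 : 1 ≤ P' := by rw [hP']; exact Nat.le_floor (by exact_mod_cast h2)
      exact_mod_cast h4
    have e7 : 4 * g ≤ P ^ d := by
      have h3 : (g : ℝ) ≤ C * (P' : ℝ) ^ (d + 1) := by
        refine hS.gup.trans (mul_le_mul_of_nonneg_left ?_ (by linarith))
        rw [← Real.rpow_natCast (P' : ℝ) (d + 1)]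
        apply Real.rpow_le_rpow_of_exponent_le hP'1
        rw [← hκ]
        push_cast
        have : κ ^ (u + 1) ≤ 1 := pow_le_one₀ hκ0.le hκ1.le
        have h4 : (0 : ℝ) ≤ (d : ℝ) + 1 := by positivity
        nlinarith
      have h5 : 4 * (g : ℝ) ≤ (P : ℝ) ^ d := by linarith
      exact_mod_cast h5
    have hsep : ∀ x ∈ Ioc P (2 * P), ∀ s ∈ S, ∀ y ∈ Ioc P (2 * P), ∀ t ∈ S, x < y →
        x ^ (d + 1) + s + g ≤ y ^ (d + 1) + t := by
      intro x hx s hs y _ t _ hxy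
      rw [mem_Ioc] at hx
      have h3 := pow_gap d x y P hx.1.le hxy
      have h4 : P ^ d ≤ (d + 1) * P ^ d := Nat.le_mul_of_pos_left _ (by omega)
      have := e6 s hs
      omega
    refine ⟨(Ioc P (2 * P) ×ˢ S).image (fun p => p.1 ^ (d + 1) + p.2), g, ?_, ?_, ?_, hS.g1, ?_, ?_⟩
    · intro n hn
      rw [mem_image] at hn
      obtain ⟨⟨x, s⟩, hp, rfl⟩ := hn
      rw [mem_product, mem_Ioc] at hp
      obtain ⟨⟨hx, _⟩, hs⟩ := hp
      simp only at hx hs
      obtain ⟨y, hy1, hy2⟩ := hS.sum s hs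
      refine ⟨Fin.cons x y, ?_, ?_⟩
      · intro i
        refine Fin.cases ?_ ?_ i
        · simp; omega
        · intro j; simpa using hy1 j
      · rw [Fin.sum_univ_succ]
        simp only [Fin.cons_zero, Fin.cons_succ]
        rw [hy2]
    · intro n hn
      rw [mem_image] at hn
      obtain ⟨⟨x, s⟩, hp, rfl⟩ := hn
      rw [mem_product, mem_Ioc] at hp
      obtain ⟨⟨_, hx⟩, hs⟩ := hp
      simp only at hx hs
      push_cast
      have h3 : (x : ℝ) ^ (d + 1) ≤ 2 ^ (d + 1) * (P : ℝ) ^ (d + 1) := by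
        rw [← mul_pow]
        apply pow_le_pow_left₀ (Nat.cast_nonneg _)
        exact_mod_cast hx
      have h4 : (s : ℝ) ≤ C * (P : ℝ) ^ (d + 1) := by
        have h5 : (s : ℝ) ≤ (P : ℝ) ^ d / 4 := (hS.up s hs).trans e5
        have h6 : (P : ℝ) ^ d ≤ (P : ℝ) ^ (d + 1) := pow_le_pow_right₀ hPr (by omega)
        nlinarith
      linarith
    · intro n hn n' hn' hlt
      rw [mem_image] at hn hn'
      obtain ⟨⟨x, s⟩, hp, rfl⟩ := hn
      obtain ⟨⟨y, t⟩, hq, rfl⟩ := hn'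
      rw [mem_product] at hp hq
      simp only at hp hq hlt ⊢
      rcases lt_trichotomy x y with h | h | h
      · exact hsep x hp.1 s hp.2 y hq.1 t hq.2 h
      · subst h
        have := hS.sep s hp.2 t hq.2 (by omega)
        omega
      · have := hsep y hq.1 t hq.2 x hp.1 s hp.2 h
        omega
    · rw [card_image_of_injOn, card_product, Nat.card_Ioc, show 2 * P - P = P by omega]
      · push_cast
        have h3 : c / (2 * A) ^ (d + 1) * (P : ℝ) ^ d ≤ c * (P' : ℝ) ^ (d + 1) := by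
          calc c / (2 * A) ^ (d + 1) * (P : ℝ) ^ d = c * ((P : ℝ) ^ κ / (2 * A)) ^ (d + 1) := by
                rw [div_pow, e3]; ring
            _ ≤ _ := by
              apply mul_le_mul_of_nonneg_left _ hc.le
              exact pow_le_pow_left₀ (by positivity) e2 _
        calc c / (2 * A) ^ (d + 1) * (P : ℝ) ^ (d + 1) = P * (c / (2 * A) ^ (d + 1) * (P : ℝ) ^ d) := by
              rw [pow_succ]; ring
          _ ≤ P * ((S.card : ℝ) * g) := mul_le_mul_of_nonneg_left (h3.trans hS.low) hP0.le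
          _ = _ := by ring
      · rintro ⟨x, s⟩ hp ⟨y, t⟩ hq heq
        rw [mem_coe, mem_product] at hp hq
        simp only at hp hq heq
        have hg := hS.g1
        rcases lt_trichotomy x y with h | h | h
        · have := hsep x hp.1 s hp.2 y hq.1 t hq.2 h
          omega
        · subst h
          rw [Prod.mk.injEq]
          exact ⟨rfl, by omega⟩
        · have := hsep y hq.1 t hq.2 x hp.1 s hp.2 h
          omega
    · refine hS.gup.trans ?_
      rw [← hκ]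
      have h3 : (P' : ℝ) ^ (((d : ℝ) + 1) * κ ^ (u + 1)) ≤ (P : ℝ) ^ (((d : ℝ) + 1) * κ ^ (u + 1 + 1)) := by
        have h4 : (P' : ℝ) ≤ (P : ℝ) ^ κ := e1.trans (div_le_self (by positivity) (by linarith))
        calc (P' : ℝ) ^ (((d : ℝ) + 1) * κ ^ (u + 1)) ≤ ((P : ℝ) ^ κ) ^ (((d : ℝ) + 1) * κ ^ (u + 1)) :=
              Real.rpow_le_rpow (Nat.cast_nonneg _) h4 (by positivity)
          _ = _ := by
              rw [← Real.rpow_mul hP0.le]
              congr 1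
              ring
      have h5 : 0 ≤ (P : ℝ) ^ (((d : ℝ) + 1) * κ ^ (u + 1 + 1)) := by positivity
      have h6 : (0 : ℝ) ≤ 2 ^ (d + 1) := by positivity
      nlinarith

end Pool.Agent.Zk40.D
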