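import Pool.Agent.Zk40.D.AEn
import Pool.Agent.Zk40.W.Circle
import Pool.Agent.N193.PS.Frac

/-!
Dilated sets in Waring's problem: exponential sums over a dilated set near rational points.
-/

namespace Pool.Agent.Zk40.D

open Finset Filter Topology MeasureTheory
open Pool.Agent.H469R2.NK (e norm_e e_add conj_e e_zero)
open Pool.Agent.Zk40.W (e_cont)
open Pool.Agent.N193.PS (e_lip)

/-- the exponential sum over a set -/
noncomputable def Gs (B : Finset ℕ) (t : ℝ) : ℂ := ∑ b ∈ B, e (t * b)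

lemma Gs_cont (B : Finset ℕ) : Continuous (Gs B) := by
  unfold Gs
  exact continuous_finsetSum _ fun t _ => e_cont.comp (by fun_prop)

lemma int_exp (x L : ℝ) (hL : 0 ≤ L) : ‖∫ s in (0 : ℝ)..L, e (s * x)‖ ≤ L ∧
    (x ≠ 0 → ‖∫ s in (0 : ℝ)..L, e (s * x)‖ ≤ 1 / |x|) := by
  constructor
  · have h1 : ‖∫ s in (0 : ℝ)..L, e (s * x)‖ ≤ 1 * |L - 0| := by
      apply intervalIntegral.norm_integral_le_of_norm_le_const
      intro s _
      rw [norm_e]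
    rwa [one_mul, sub_zero, abs_of_nonneg hL] at h1
  · intro hx
    have hc : (2 * Real.pi * x * Complex.I : ℂ) ≠ 0 := by
      have h1 : (x : ℂ) ≠ 0 := by exact_mod_cast hx
      have h2 : (Real.pi : ℂ) ≠ 0 := by exact_mod_cast Real.pi_ne_zero
      exact mul_ne_zero (mul_ne_zero (mul_ne_zero two_ne_zero h2) h1) Complex.I_ne_zero
    have h1 : ∀ s : ℝ, e (s * x) = Complex.exp ((2 * Real.pi * x * Complex.I : ℂ) * s) := by
      intro β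
      unfold e
      congr 1
      push_cast
      ring
    have h2 : ∀ s : ℝ, ‖Complex.exp ((2 * Real.pi * x * Complex.I : ℂ) * s)‖ = 1 := by
      intro s
      rw [← h1, norm_e]
    simp_rw [h1]
    rw [integral_exp_mul_complex hc, norm_div]
    have h3 : ‖(2 * Real.pi * x * Complex.I : ℂ)‖ = 2 * Real.pi * |x| := by
      simp [abs_of_pos Real.pi_pos]
    rw [h3]
    have h4 : ‖Complex.exp ((2 * Real.pi * x * Complex.I : ℂ) * (L : ℂ)) - Complex.exp ((2 * Real.pi * x * Complex.I : ℂ) * ((0 : ℝ) : ℂ))‖ ≤ 2 := by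
      refine (norm_sub_le _ _).trans ?_
      rw [h2, h2]
      norm_num
    have hx0 : 0 < |x| := abs_pos.2 hx
    have hpi := Real.pi_gt_three
    rw [div_le_div_iff₀ (by positivity) hx0]
    nlinarith

lemma mom (B : Finset ℕ) (N : ℕ) (hB : ∀ b ∈ B, b ≤ N) (t L : ℝ) (ht : t ≠ 0) (hL : 0 ≤ L) :
    ∫ s in (0 : ℝ)..L, ‖Gs B (t * s)‖ ^ 2 ≤ (B.card : ℝ) * (L + 2 * (1 + Real.log N) / |t|) := by
  have ht0 : 0 < |t| := abs_pos.2 ht
  have h1 : ∀ s : ℝ, ((‖Gs B (t * s)‖ ^ 2 : ℝ) : ℂ) = ∑ p ∈ B ×ˢ B, e (s * (t * ((p.1 : ℝ) - p.2))) := by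
    intro s
    rw [← Complex.normSq_eq_norm_sq, ← Complex.mul_conj]
    unfold Gs
    rw [map_sum, sum_mul_sum, sum_product]
    apply sum_congr rfl
    intro a _
    apply sum_congr rfl
    intro b _
    rw [conj_e, ← e_add]
    congr 1
    ring
  have h2 : ((∫ s in (0 : ℝ)..L, ‖Gs B (t * s)‖ ^ 2 : ℝ) : ℂ) =
      ∑ p ∈ B ×ˢ B, ∫ s in (0 : ℝ)..L, e (s * (t * ((p.1 : ℝ) - p.2))) := by
    rw [← intervalIntegral.integral_ofReal]
    simp_rw [h1]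
    rw [intervalIntegral.integral_finsetSum]
    intro p _
    exact (e_cont.comp (by fun_prop)).intervalIntegrable _ _
  have h3 : ∫ s in (0 : ℝ)..L, ‖Gs B (t * s)‖ ^ 2 ≤ ‖((∫ s in (0 : ℝ)..L, ‖Gs B (t * s)‖ ^ 2 : ℝ) : ℂ)‖ := by
    rw [Complex.norm_real]
    exact Real.le_norm_self _
  refine h3.trans ?_
  rw [h2]
  refine (norm_sum_le _ _).trans ?_
  rw [sum_product]
  have h4 : ∀ b ∈ B, ∑ b' ∈ B, ‖∫ s in (0 : ℝ)..L, e (s * (t * ((b : ℝ) - b')))‖ ≤ L + 2 * (1 + Real.log N) / |t| := by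
    intro b hb
    rw [← add_sum_erase B _ hb]
    apply add_le_add
    · exact (int_exp _ L hL).1
    · calc ∑ b' ∈ B.erase b, ‖∫ s in (0 : ℝ)..L, e (s * (t * ((b : ℝ) - b')))‖
          ≤ ∑ b' ∈ B.erase b, (1 / |t|) * (1 / |(b : ℝ) - b'|) := by
            apply sum_le_sum
            intro b' hb'
            rw [mem_erase] at hb'
            have h5 : (b : ℝ) - b' ≠ 0 := by
              rw [sub_ne_zero]
              exact_mod_cast (Ne.symm hb'.1)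
            have h6 := (int_exp (t * ((b : ℝ) - b')) L hL).2 (mul_ne_zero ht h5)
            refine h6.trans (le_of_eq ?_)
            rw [abs_mul]
            field_simp
        _ = (1 / |t|) * ∑ b' ∈ B.erase b, 1 / |(b : ℝ) - b'| := by rw [mul_sum]
        _ ≤ (1 / |t|) * (2 * (1 + Real.log N)) := mul_le_mul_of_nonneg_left (inv_sum B N hB b (hB b hb)) (by positivity)
        _ = _ := by ring
  refine (sum_le_sum h4).trans (le_of_eq ?_)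
  rw [sum_const, nsmul_eq_mul]

lemma bad_meas (B : Finset ℕ) (N : ℕ) (hB : ∀ b ∈ B, b ≤ N) (t L : ℝ) (ht : t ≠ 0) (hL : 0 ≤ L) (y : ℝ) (hy : 0 < y) :
    volume {s | s ∈ Set.Icc 0 L ∧ y ≤ ‖Gs B (t * s)‖} ≤
      ENNReal.ofReal ((B.card : ℝ) * (L + 2 * (1 + Real.log N) / |t|) / y ^ 2) := by
  have hcont : Continuous fun s : ℝ => ‖Gs B (t * s)‖ ^ 2 := ((Gs_cont B).comp (by fun_prop)).norm.pow 2
  set μ := (volume : Measure ℝ).restrict (Set.Icc 0 L) with hμ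
  have h1 : volume {s | s ∈ Set.Icc 0 L ∧ y ≤ ‖Gs B (t * s)‖} = μ {s | y ≤ ‖Gs B (t * s)‖} := by
    rw [hμ, Measure.restrict_apply]
    · congr 1
      ext s
      simp only [Set.mem_ofPred_eq, Set.mem_inter_iff]
      tauto
    · exact (isClosed_le continuous_const ((Gs_cont B).comp (by fun_prop)).norm).measurableSet
  have hy2 : ENNReal.ofReal (y ^ 2) ≠ 0 := by
    rw [ne_eq, ENNReal.ofReal_eq_zero, not_le]; positivity
  have h2 : μ {s | y ≤ ‖Gs B (t * s)‖} ≤ μ {s | ENNReal.ofReal (y ^ 2) ≤ ENNReal.ofReal (‖Gs B (t * s)‖ ^ 2)} := by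
    apply measure_mono
    intro s hs
    exact ENNReal.ofReal_le_ofReal (pow_le_pow_left₀ hy.le hs 2)
  have h3 : ∫⁻ s, ENNReal.ofReal (‖Gs B (t * s)‖ ^ 2) ∂μ = ENNReal.ofReal (∫ s in (0 : ℝ)..L, ‖Gs B (t * s)‖ ^ 2) := by
    rw [intervalIntegral.integral_of_le hL, ← integral_Icc_eq_integral_Ioc]
    symm
    apply ofReal_integral_eq_lintegral_ofReal
    · exact hcont.continuousOn.integrableOn_Icc
    · exact ae_of_all _ fun s => by positivity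
  rw [h1]
  refine h2.trans ((meas_ge_le_lintegral_div hcont.measurable.ennreal_ofReal.aemeasurable hy2 ENNReal.ofReal_ne_top).trans ?_)
  rw [h3, ← ENNReal.ofReal_div_of_pos (by positivity)]
  apply ENNReal.ofReal_le_ofReal
  exact div_le_div_of_nonneg_right (mom B N hB t L ht hL) (by positivity)

lemma Gs_lip (B : Finset ℕ) (N : ℕ) (hB : ∀ b ∈ B, b ≤ N) (x y : ℝ) : ‖Gs B x - Gs B y‖ ≤ B.card * (7 * (|x - y| * N)) := by
  unfold Gs
  rw [← sum_sub_distrib]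
  refine (norm_sum_le _ _).trans ?_
  rw [← nsmul_eq_mul, ← sum_const]
  apply sum_le_sum
  intro b hb
  refine (e_lip _ _).trans ?_
  rw [← sub_mul, abs_mul, Nat.abs_cast]
  have : (b : ℝ) ≤ N := by exact_mod_cast hB b hb
  have h2 := mul_le_mul_of_nonneg_left this (abs_nonneg (x - y))
  linarith

/-- the grid -/
noncomputable def Gr (T L : ℕ) : Finset (ℕ × ℤ × ℤ) := (Icc 1 T) ×ˢ (((Icc (-(129 * T ^ 10 : ℕ) : ℤ) (129 * T ^ 10 : ℕ)).filter (· ≠ 0)) ×ˢ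
  (Icc (-(7 * L * T ^ 13 : ℕ) : ℤ) (7 * L * T ^ 13 : ℕ)))

lemma Gr_card (T L : ℕ) (hT : 1 ≤ T) (hL : 1 ≤ L) : ((Gr T L).card : ℝ) ≤ 3885 * L * (T : ℝ) ^ 24 := by
  have h1 : (Gr T L).card ≤ T * ((2 * (129 * T ^ 10) + 1) * (2 * (7 * L * T ^ 13) + 1)) := by
    unfold Gr
    rw [card_product, card_product, Nat.card_Icc, show T + 1 - 1 = T by omega]
    apply Nat.mul_le_mul_left
    apply Nat.mul_le_mul
    · refine (card_filter_le _ _).trans ?_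
      rw [Int.card_Icc]
      omega
    · rw [Int.card_Icc]
      omega
  have h2 : T * ((2 * (129 * T ^ 10) + 1) * (2 * (7 * L * T ^ 13) + 1)) ≤ 3885 * L * T ^ 24 := by
    have e1 : 1 ≤ T ^ 10 := Nat.one_le_pow _ _ hT
    have e2 : 1 ≤ L * T ^ 13 := Nat.mul_pos hL (Nat.one_le_pow _ _ hT)
    calc T * ((2 * (129 * T ^ 10) + 1) * (2 * (7 * L * T ^ 13) + 1)) ≤ T * ((259 * T ^ 10) * (15 * (L * T ^ 13))) := by
          apply Nat.mul_le_mul_left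
          apply Nat.mul_le_mul
          · omega
          · have : 2 * (7 * L * T ^ 13) = 14 * (L * T ^ 13) := by ring
            omega
      _ = 3885 * L * T ^ 24 := by ring
  exact_mod_cast h1.trans h2

/-- the point of the grid -/
noncomputable def gp (T L P d : ℕ) (i : ℕ × ℤ × ℤ) : ℝ :=
  (i.2.1 : ℝ) / i.1 + i.2.2 * (T / (P : ℝ) ^ (d + 1) / (7 * L * (T : ℝ) ^ 13))

lemma gp_ne (T L P d : ℕ) (hT : 1 ≤ T) (hL : 1 ≤ L) (hP : 1 ≤ P) (hTP : 2 * (T : ℝ) ^ 2 ≤ (P : ℝ) ^ (d + 1)) (i : ℕ × ℤ × ℤ)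
    (hi : i ∈ Gr T L) : 1 / (2 * (T : ℝ)) ≤ |gp T L P d i| := by
  have hTr : (1 : ℝ) ≤ T := by exact_mod_cast hT
  have hLr : (1 : ℝ) ≤ L := by exact_mod_cast hL
  have hPr : (1 : ℝ) ≤ P := by exact_mod_cast hP
  have hPd : (0 : ℝ) < (P : ℝ) ^ (d + 1) := by positivity
  unfold Gr at hi
  rw [mem_product, mem_product, mem_filter, mem_Icc, mem_Icc, mem_Icc] at hi
  obtain ⟨⟨h1, h2⟩, ⟨_, h3⟩, h4, h5⟩ := hi
  have e1 : 1 / (T : ℝ) ≤ |(i.2.1 : ℝ) / i.1| := by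
    rw [abs_div, Nat.abs_cast]
    have h6 : (1 : ℝ) ≤ |(i.2.1 : ℝ)| := by
      have := Int.one_le_abs h3
      exact_mod_cast this
    have h7 : (0 : ℝ) < i.1 := by exact_mod_cast (by omega : 0 < i.1)
    have h8 : (i.1 : ℝ) ≤ T := by exact_mod_cast h2
    rw [div_le_div_iff₀ (by linarith) h7]
    nlinarith
  have e2 : |(i.2.2 : ℝ) * (T / (P : ℝ) ^ (d + 1) / (7 * L * (T : ℝ) ^ 13))| ≤ 1 / (2 * (T : ℝ)) := by
    have h6 : |(i.2.2 : ℝ)| ≤ 7 * L * (T : ℝ) ^ 13 := by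
      have : |i.2.2| ≤ ((7 * L * T ^ 13 : ℕ) : ℤ) := abs_le.2 ⟨h4, h5⟩
      have h7 : ((|i.2.2| : ℤ) : ℝ) ≤ (((7 * L * T ^ 13 : ℕ) : ℤ) : ℝ) := by exact_mod_cast this
      push_cast at h7
      exact h7
    rw [abs_mul, abs_of_pos (show 0 < T / (P : ℝ) ^ (d + 1) / (7 * L * (T : ℝ) ^ 13) by positivity)]
    calc |(i.2.2 : ℝ)| * (T / (P : ℝ) ^ (d + 1) / (7 * L * (T : ℝ) ^ 13)) ≤
          (7 * L * (T : ℝ) ^ 13) * (T / (P : ℝ) ^ (d + 1) / (7 * L * (T : ℝ) ^ 13)) :=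
          mul_le_mul_of_nonneg_right h6 (by positivity)
      _ = T / (P : ℝ) ^ (d + 1) := by field_simp
      _ ≤ 1 / (2 * (T : ℝ)) := by
        rw [div_le_div_iff₀ hPd (by positivity)]
        nlinarith
  have e3 : 1 / (T : ℝ) = 1 / (2 * (T : ℝ)) + 1 / (2 * (T : ℝ)) := by field_simp; norm_num
  unfold gp
  have e4 := abs_sub_abs_le_abs_sub ((i.2.1 : ℝ) / i.1) (-((i.2.2 : ℝ) * (T / (P : ℝ) ^ (d + 1) / (7 * L * (T : ℝ) ^ 13))))
  rw [sub_neg_eq_add, abs_neg] at e4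
  linarith

/-- the exponential sums are small near all rational points -/
theorem ae_sup (d : ℕ) (T : ℕ → ℕ) (ρ γ : ℝ) (hT : ∀ᶠ P : ℕ in atTop, 1 ≤ T P ∧ (T P : ℝ) ≤ (P : ℝ) ^ ρ)
    (hρ1 : 100 * ρ ≤ ((d : ℝ) + 1) * γ) (hρ2 : ρ ≤ 1 / 8) (hγ : 0 < γ) (B : Set ℕ)
    (hB : ∀ᶠ N : ℕ in atTop, (N : ℝ) ^ γ ≤ ((Bf B N).card : ℝ)) (L : ℕ) (hL : 1 ≤ L) :
    ∀ᵐ x : ℝ, x ∈ Set.Icc 0 (L : ℝ) → ∀ᶠ j : ℕ in atTop, ∀ (q : ℕ) (a : ℤ) (t : ℝ), 1 ≤ q → q ≤ T (2 ^ j) → a ≠ 0 →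
      |a| ≤ ((129 * T (2 ^ j) ^ 10 : ℕ) : ℤ) → |t - (a : ℝ) / q| ≤ T (2 ^ j) / ((2 ^ j : ℕ) : ℝ) ^ (d + 1) →
      ‖Gs (Bf B ((2 ^ j) ^ (d + 1))) (t * x)‖ ≤ 2 * ((Bf B ((2 ^ j) ^ (d + 1))).card : ℝ) / (T (2 ^ j) : ℝ) ^ 12 := by
  have hLr : (1 : ℝ) ≤ L := by exact_mod_cast hL
  obtain ⟨δ, hδ⟩ : ∃ δ : ℝ, δ = ((d : ℝ) + 1) * γ / 4 := ⟨_, rfl⟩
  have hδ0 : 0 < δ := by rw [hδ]; positivity
  have ev1 := two_tend.eventually (log_le 1 ((d : ℝ) + 1) δ hδ0)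
  have ev2 := two_tendN.eventually hT
  have ev3 := (two_pow_tend d).eventually hB
  have ev4 : ∀ᶠ j : ℕ in atTop, 2 ≤ ((2 ^ j : ℕ) : ℝ) ^ ((1 : ℝ) / 4) :=
    ((tendsto_rpow_atTop (by norm_num)).comp two_tend).eventually_ge_atTop _
  have hall := (((ev1.and ev2).and ev3).and ev4)
  have h1 := bc (fun j => {x | x ∈ Set.Icc 0 (L : ℝ) ∧ ∃ i ∈ Gr (T (2 ^ j)) L,
    ((Bf B ((2 ^ j) ^ (d + 1))).card : ℝ) / (T (2 ^ j) : ℝ) ^ 12 ≤
      ‖Gs (Bf B ((2 ^ j) ^ (d + 1))) (gp (T (2 ^ j)) L (2 ^ j) d i * x)‖})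
    (3885 * L * (L + 4)) ((2 : ℝ) ^ (-δ)) (by positivity) (Real.rpow_lt_one_of_one_lt_of_neg (by norm_num) (by linarith))
    (by positivity) (by
      filter_upwards [hall] with j hj
      obtain ⟨⟨⟨e1, e2⟩, e3⟩, e4⟩ := hj
      rw [two_rpow]
      obtain ⟨P, hP⟩ : ∃ P : ℕ, P = 2 ^ j := ⟨_, rfl⟩
      rw [← hP] at e1 e2 e3 e4 ⊢
      have hP1 : 1 ≤ P := by rw [hP]; exact Nat.one_le_two_pow
      have hPr : (1 : ℝ) ≤ P := by exact_mod_cast hP1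
      have hP0 : (0 : ℝ) < P := by linarith
      obtain ⟨t, ht⟩ : ∃ t : ℕ, t = T P := ⟨_, rfl⟩
      rw [← ht] at e2 ⊢
      obtain ⟨ht1, ht2⟩ := e2
      have htr : (1 : ℝ) ≤ t := by exact_mod_cast ht1
      have ht0 : (0 : ℝ) < t := by linarith
      obtain ⟨Bp, hBp⟩ : ∃ Bp : Finset ℕ, Bp = Bf B (P ^ (d + 1)) := ⟨_, rfl⟩
      have hBle : ∀ b ∈ Bp, b ≤ P ^ (d + 1) := by rw [hBp]; exact Bf_le B _
      rw [← hBp] at e3 ⊢
      have hb0 : (0 : ℝ) < (Bp.card : ℝ) := lt_of_lt_of_le (by positivity) e3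
      have hPs : ((P ^ (d + 1) : ℕ) : ℝ) ^ γ = (P : ℝ) ^ (((d : ℝ) + 1) * γ) := by
        push_cast
        rw [← Real.rpow_natCast, ← Real.rpow_mul hP0.le]
        congr 1
        push_cast
        ring
      rw [hPs] at e3
      have hlog : Real.log ((P ^ (d + 1) : ℕ) : ℝ) = ((d : ℝ) + 1) * Real.log P := by
        push_cast
        rw [Real.log_pow]
        push_cast
        ring
      have hl0 : 0 ≤ Real.log ((P ^ (d + 1) : ℕ) : ℝ) := Real.log_natCast_nonneg _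
      have hTP : 2 * (t : ℝ) ^ 2 ≤ (P : ℝ) ^ (d + 1) := by
        have f1 : (t : ℝ) ^ 2 ≤ (P : ℝ) ^ ((1 : ℝ) / 4) := by
          calc (t : ℝ) ^ 2 ≤ ((P : ℝ) ^ ρ) ^ 2 := pow_le_pow_left₀ ht0.le ht2 2
            _ = (P : ℝ) ^ (ρ * 2) := by rw [← Real.rpow_natCast, ← Real.rpow_mul hP0.le]; norm_num
            _ ≤ _ := Real.rpow_le_rpow_of_exponent_le hPr (by linarith)
        have f2 : (P : ℝ) ^ ((1 : ℝ) / 4) * (P : ℝ) ^ ((1 : ℝ) / 4) ≤ (P : ℝ) ^ (d + 1) := by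
          rw [← Real.rpow_add hP0, ← Real.rpow_natCast]
          apply Real.rpow_le_rpow_of_exponent_le hPr
          push_cast
          have : (0 : ℝ) ≤ d := Nat.cast_nonneg _
          linarith
        have f3 : 0 ≤ (P : ℝ) ^ ((1 : ℝ) / 4) := by positivity
        nlinarith
      have hsub : {x | x ∈ Set.Icc 0 (L : ℝ) ∧ ∃ i ∈ Gr t L, (Bp.card : ℝ) / (t : ℝ) ^ 12 ≤ ‖Gs Bp (gp t L P d i * x)‖} ⊆
          ⋃ i ∈ Gr t L, {x | x ∈ Set.Icc 0 (L : ℝ) ∧ (Bp.card : ℝ) / (t : ℝ) ^ 12 ≤ ‖Gs Bp (gp t L P d i * x)‖} := by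
        rintro x ⟨hx, i, hi, hxi⟩
        simp only [Set.mem_iUnion]
        exact ⟨i, hi, hx, hxi⟩
      have hone : ∀ i ∈ Gr t L, volume {x | x ∈ Set.Icc 0 (L : ℝ) ∧ (Bp.card : ℝ) / (t : ℝ) ^ 12 ≤ ‖Gs Bp (gp t L P d i * x)‖} ≤
          ENNReal.ofReal ((L + 4) * (t : ℝ) ^ 25 * (P : ℝ) ^ δ * (P : ℝ) ^ (-(((d : ℝ) + 1) * γ))) := by
        intro i hi
        have f1 := gp_ne t L P d ht1 hL hP1 hTP i hi
        have f2 : gp t L P d i ≠ 0 := by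
          intro h
          rw [h, abs_zero] at f1
          have : 0 < 1 / (2 * (t : ℝ)) := by positivity
          linarith
        refine (bad_meas Bp (P ^ (d + 1)) hBle _ L f2 (by linarith) _ (by positivity)).trans (ENNReal.ofReal_le_ofReal ?_)
        have f3 : 2 * (1 + Real.log ((P ^ (d + 1) : ℕ) : ℝ)) / |gp t L P d i| ≤ 4 * t * (1 + Real.log ((P ^ (d + 1) : ℕ) : ℝ)) := by
          have f4 : 0 < |gp t L P d i| := abs_pos.2 f2
          rw [div_le_iff₀ f4]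
          have f5 : 1 ≤ 2 * t * |gp t L P d i| := by
            rw [div_le_iff₀ (by positivity)] at f1
            linarith
          have f6 : 0 ≤ 2 * (1 + Real.log ((P ^ (d + 1) : ℕ) : ℝ)) := by positivity
          nlinarith
        have f7 : L + 2 * (1 + Real.log ((P ^ (d + 1) : ℕ) : ℝ)) / |gp t L P d i| ≤ (L + 4) * t * (P : ℝ) ^ δ := by
          have f8 : 1 + Real.log ((P ^ (d + 1) : ℕ) : ℝ) ≤ (P : ℝ) ^ δ := by rw [hlog]; exact e1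
          have f9 : 1 ≤ (P : ℝ) ^ δ := by linarith
          have g1 : (L : ℝ) ≤ L * (t * (P : ℝ) ^ δ) := by
            have : 1 ≤ t * (P : ℝ) ^ δ := by nlinarith
            nlinarith
          have g2 : 4 * t * (1 + Real.log ((P ^ (d + 1) : ℕ) : ℝ)) ≤ 4 * t * (P : ℝ) ^ δ :=
            mul_le_mul_of_nonneg_left f8 (by positivity)
          linarith
        have f10 : 1 / (Bp.card : ℝ) ≤ (P : ℝ) ^ (-(((d : ℝ) + 1) * γ)) := by
          rw [Real.rpow_neg hP0.le, ← one_div]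
          exact one_div_le_one_div_of_le (by positivity) e3
        calc (Bp.card : ℝ) * (L + 2 * (1 + Real.log ((P ^ (d + 1) : ℕ) : ℝ)) / |gp t L P d i|) / ((Bp.card : ℝ) / (t : ℝ) ^ 12) ^ 2
            = (L + 2 * (1 + Real.log ((P ^ (d + 1) : ℕ) : ℝ)) / |gp t L P d i|) * (t : ℝ) ^ 24 * (1 / (Bp.card : ℝ)) := by
              field_simp
          _ ≤ ((L + 4) * t * (P : ℝ) ^ δ) * (t : ℝ) ^ 24 * (P : ℝ) ^ (-(((d : ℝ) + 1) * γ)) := by gcongr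
          _ = _ := by ring
      refine (measure_mono hsub).trans ((measure_biUnion_finset_le _ _).trans ((sum_le_sum hone).trans ?_))
      rw [sum_const, nsmul_eq_mul, ← ENNReal.ofReal_natCast, ← ENNReal.ofReal_mul (Nat.cast_nonneg _)]
      apply ENNReal.ofReal_le_ofReal
      have hcard := Gr_card t L ht1 hL
      have f1 : (t : ℝ) ^ 49 ≤ (P : ℝ) ^ (2 * δ) := by
        calc (t : ℝ) ^ 49 ≤ ((P : ℝ) ^ ρ) ^ 49 := pow_le_pow_left₀ ht0.le ht2 49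
          _ = (P : ℝ) ^ (ρ * 49) := by rw [← Real.rpow_natCast, ← Real.rpow_mul hP0.le]; norm_num
          _ ≤ _ := by
            apply Real.rpow_le_rpow_of_exponent_le hPr
            rw [hδ]
            have : 0 < ((d : ℝ) + 1) * γ := by positivity
            linarith
      calc ((Gr t L).card : ℝ) * ((L + 4) * (t : ℝ) ^ 25 * (P : ℝ) ^ δ * (P : ℝ) ^ (-(((d : ℝ) + 1) * γ)))
          ≤ (3885 * L * (t : ℝ) ^ 24) * ((L + 4) * (t : ℝ) ^ 25 * (P : ℝ) ^ δ * (P : ℝ) ^ (-(((d : ℝ) + 1) * γ))) :=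
            mul_le_mul_of_nonneg_right hcard (by positivity)
        _ = 3885 * L * (L + 4) * ((t : ℝ) ^ 49 * ((P : ℝ) ^ δ * (P : ℝ) ^ (-(((d : ℝ) + 1) * γ)))) := by ring
        _ ≤ 3885 * L * (L + 4) * ((P : ℝ) ^ (2 * δ) * ((P : ℝ) ^ δ * (P : ℝ) ^ (-(((d : ℝ) + 1) * γ)))) := by gcongr
        _ = 3885 * L * (L + 4) * (P : ℝ) ^ (-δ) := by
          rw [← Real.rpow_add hP0, ← Real.rpow_add hP0]
          congr 2
          rw [hδ]
          ring)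
  filter_upwards [h1] with x hx hxI
  filter_upwards [hx, ev2] with j hj e2 q a t hq1 hq2 ha1 ha2 htq
  obtain ⟨P, hP⟩ : ∃ P : ℕ, P = 2 ^ j := ⟨_, rfl⟩
  rw [← hP] at hj e2 hq2 ha2 htq ⊢
  have hP1 : 1 ≤ P := by rw [hP]; exact Nat.one_le_two_pow
  have hPr : (1 : ℝ) ≤ P := by exact_mod_cast hP1
  have hP0 : (0 : ℝ) < P := by linarith
  obtain ⟨τ, hτ⟩ : ∃ τ : ℕ, τ = T P := ⟨_, rfl⟩
  rw [← hτ] at hj e2 hq2 ha2 htq ⊢
  obtain ⟨ht1, ht2⟩ := e2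
  have htr : (1 : ℝ) ≤ τ := by exact_mod_cast ht1
  have ht0 : (0 : ℝ) < τ := by linarith
  obtain ⟨Bp, hBp⟩ : ∃ Bp : Finset ℕ, Bp = Bf B (P ^ (d + 1)) := ⟨_, rfl⟩
  have hBle : ∀ b ∈ Bp, b ≤ P ^ (d + 1) := by rw [hBp]; exact Bf_le B _
  rw [← hBp] at hj ⊢
  simp only [not_and, not_exists, not_le] at hj
  have hPd : (0 : ℝ) < (P : ℝ) ^ (d + 1) := by positivity
  obtain ⟨η, hη⟩ : ∃ η : ℝ, η = τ / (P : ℝ) ^ (d + 1) / (7 * L * (τ : ℝ) ^ 13) := ⟨_, rfl⟩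
  have hη0 : 0 < η := by rw [hη]; positivity
  have hη2 : (7 * L * (τ : ℝ) ^ 13) * η = τ / (P : ℝ) ^ (d + 1) := by rw [hη]; field_simp
  obtain ⟨i, hi⟩ : ∃ i : ℤ, i = ⌊(t - (a : ℝ) / q) / η⌋ := ⟨_, rfl⟩
  have hi1 : (i : ℝ) ≤ (t - (a : ℝ) / q) / η := by rw [hi]; exact Int.floor_le _
  have hi2 : (t - (a : ℝ) / q) / η < i + 1 := by rw [hi]; exact Int.lt_floor_add_one _
  rw [abs_le] at htq
  have hr1 : (t - (a : ℝ) / q) / η ≤ ((7 * L * τ ^ 13 : ℕ) : ℝ) := by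
    rw [div_le_iff₀ hη0]
    push_cast
    rw [hη2]
    exact htq.2
  have hr2 : -((7 * L * τ ^ 13 : ℕ) : ℝ) ≤ (t - (a : ℝ) / q) / η := by
    rw [le_div_iff₀ hη0]
    push_cast
    rw [neg_mul, hη2]
    exact htq.1
  have himem : (q, a, i) ∈ Gr τ L := by
    unfold Gr
    rw [mem_product, mem_product, mem_filter, mem_Icc, mem_Icc, mem_Icc]
    refine ⟨⟨hq1, hq2⟩, ⟨abs_le.1 ha2, ha1⟩, ?_, ?_⟩
    · rw [hi]
      apply Int.le_floor.2
      push_cast at hr2 ⊢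
      exact hr2
    · rw [hi]
      have : (⌊(t - (a : ℝ) / q) / η⌋ : ℝ) ≤ ((7 * L * τ ^ 13 : ℕ) : ℝ) := (Int.floor_le _).trans hr1
      exact_mod_cast this
  have hgood := hj hxI (q, a, i) himem
  have hdist : |t - gp τ L P d (q, a, i)| ≤ η := by
    unfold gp
    simp only
    rw [← hη]
    rw [div_lt_iff₀ hη0] at hi2
    rw [le_div_iff₀ hη0] at hi1
    rw [abs_le]
    constructor <;> linarith
  have hlip := Gs_lip Bp (P ^ (d + 1)) hBle (t * x) (gp τ L P d (q, a, i) * x)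
  have hx0 : 0 ≤ x := hxI.1
  have hxL : x ≤ L := hxI.2
  have hb0 : (0 : ℝ) ≤ (Bp.card : ℝ) := Nat.cast_nonneg _
  have h2 : (Bp.card : ℝ) * (7 * (|t * x - gp τ L P d (q, a, i) * x| * ((P ^ (d + 1) : ℕ) : ℝ))) ≤ (Bp.card : ℝ) / (τ : ℝ) ^ 12 := by
    rw [← sub_mul, abs_mul, abs_of_nonneg hx0]
    push_cast
    calc (Bp.card : ℝ) * (7 * (|t - gp τ L P d (q, a, i)| * x * (P : ℝ) ^ (d + 1))) ≤
          (Bp.card : ℝ) * (7 * (η * L * (P : ℝ) ^ (d + 1))) := by gcongr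
      _ = _ := by rw [hη]; field_simp
  have h3 : ‖Gs Bp (t * x)‖ ≤ ‖Gs Bp (t * x) - Gs Bp (gp τ L P d (q, a, i) * x)‖ + ‖Gs Bp (gp τ L P d (q, a, i) * x)‖ := by
    have := norm_add_le (Gs Bp (t * x) - Gs Bp (gp τ L P d (q, a, i) * x)) (Gs Bp (gp τ L P d (q, a, i) * x))
    rwa [sub_add_cancel] at this
  have h4 : 2 * (Bp.card : ℝ) / (τ : ℝ) ^ 12 = (Bp.card : ℝ) / (τ : ℝ) ^ 12 + (Bp.card : ℝ) / (τ : ℝ) ^ 12 := by ring
  rw [h4]
  linarith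

end Pool.Agent.Zk40.D
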