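import Pool.Agent.Zk40.D.Sup
import Pool.Agent.Zk40.D.Circ
import Pool.Agent.Zk40.V.Wy

/-!
Dilated sets in Waring's problem: Weyl sums.
-/

namespace Pool.Agent.Zk40.D

open Finset Filter Topology MeasureTheory
open Pool.Agent.H469R2.NK (e norm_e e_add conj_e e_zero)
open Pool.Agent.Helper602.MK (ee)
open Pool.Agent.Zk40.W (ES)
open Pool.Agent.Zk40.V (pv inv_all ee_e)

theorem wey (d : ℕ) : ∃ c m : ℕ, 1 ≤ c ∧ ∀ (M R : ℕ) (β : ℝ), 1 ≤ M → 1 ≤ R →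
    (M : ℝ) / R < ‖ES (Ioc M (4 * M)) (fun z => z ^ (d + 1)) β‖ →
    ∃ (q : ℕ) (b : ℤ), 1 ≤ q ∧ (q : ℝ) ≤ c * (R : ℝ) ^ m ∧ |(q : ℝ) * β - b| ≤ c * (R : ℝ) ^ m / (M : ℝ) ^ (d + 1) := by
  obtain ⟨c, m, hc, hinv⟩ := inv_all (d + 1)
  refine ⟨c * 10 ^ m, m, Nat.mul_pos hc (by positivity), fun M R β hM hR hbig => ?_⟩
  have hMr : (1 : ℝ) ≤ M := by exact_mod_cast hM
  have hRr : (1 : ℝ) ≤ R := by exact_mod_cast hR
  obtain ⟨a, ha⟩ : ∃ a : ℕ → ℝ, a = fun i => if i = d + 1 then β else 0 := ⟨_, rfl⟩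
  have hpv : ∀ z : ℝ, pv (d + 1) a z = β * z ^ (d + 1) := by
    intro z
    unfold pv
    rw [ha, sum_eq_single (d + 1)]
    · simp
    · intro i _ hi
      simp [hi]
    · intro h
      exact absurd (mem_range.2 (by omega)) h
  obtain ⟨S, hS⟩ : ∃ S : ℕ → ℂ, S = fun n => ∑ z ∈ range n, ee (pv (d + 1) a z) := ⟨_, rfl⟩
  have hES : ES (Ioc M (4 * M)) (fun z => z ^ (d + 1)) β = S (4 * M + 1) - S (M + 1) := by
    rw [hS]
    simp only
    rw [eq_sub_iff_add_eq, add_comm]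
    have hU : range (4 * M + 1) = range (M + 1) ∪ Ioc M (4 * M) := by
      ext n; simp only [mem_union, mem_range, mem_Ioc]; omega
    rw [hU, sum_union]
    · congr 1
      unfold ES
      apply sum_congr rfl
      intro z _
      rw [ee_e, hpv]
      push_cast
      rfl
    · rw [disjoint_left]
      intro n h1 h2
      simp only [mem_range, mem_Ioc] at h1 h2
      omega
  have hone : ∃ n : ℕ, M ≤ n ∧ n ≤ 5 * M ∧ (M : ℝ) / R / 2 < ‖S n‖ := by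
    by_contra hcon
    push Not at hcon
    have h1 := hcon (4 * M + 1) (by omega) (by omega)
    have h2 := hcon (M + 1) (by omega) (by omega)
    rw [hES] at hbig
    have := norm_sub_le (S (4 * M + 1)) (S (M + 1))
    linarith
  obtain ⟨n, hn1, hn2, hn3⟩ := hone
  have hn2r : (n : ℝ) ≤ 5 * M := by exact_mod_cast hn2
  have hn1r : (M : ℝ) ≤ n := by exact_mod_cast hn1
  obtain ⟨q, hq1, hq2, hq3⟩ := hinv n (10 * R) a (by omega) (by linarith) (by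
    have h1 : (M : ℝ) / R / 2 * (10 * R) = 5 * M := by field_simp; norm_num
    have h2 : (M : ℝ) / R / 2 * (10 * R) ≤ ‖S n‖ * (10 * R) := mul_le_mul_of_nonneg_right hn3.le (by positivity)
    rw [hS] at h2
    simp only at h2
    linarith)
  obtain ⟨b, hb⟩ := hq3 (d + 1) (by omega) le_rfl
  have e1 : (c : ℝ) * (10 * R) ^ m = ((c * 10 ^ m : ℕ) : ℝ) * (R : ℝ) ^ m := by
    push_cast
    rw [mul_pow]; ring
  rw [e1] at hq2 hb
  refine ⟨q, b, hq1, hq2, ?_⟩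
  have e2 : a (d + 1) = β := by rw [ha]; simp
  rw [e2] at hb
  refine hb.trans ?_
  apply div_le_div_of_nonneg_left (by positivity) (by positivity)
  exact pow_le_pow_left₀ (by linarith) hn1r _

/-- exponential sums over the integer parts of a dilated set -/
lemma floor_bound (Bp : Finset ℕ) (x : ℝ) (hx : 0 ≤ x) (T : ℕ) (hT : 1 ≤ T) (β E : ℝ) (hβ : |β| ≤ 1)
    (hE : E = 2 * (Bp.card : ℝ) / (T : ℝ) ^ 12)
    (h1 : ∀ m : ℤ, |m| < (128 * T ^ 9 : ℕ) → ‖Gs Bp ((β + m) * x)‖ ≤ E)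
    (h2 : ∀ m : ℤ, m ≠ 0 → |m| < (T ^ 3 : ℕ) → ‖Gs Bp (m * x)‖ ≤ E) :
    ‖ES Bp (fun b => ⌊x * b⌋₊) β‖ ≤ 282 * (Bp.card : ℝ) / (T : ℝ) ^ 3 := by
  have hTr : (1 : ℝ) ≤ T := by exact_mod_cast hT
  have hb0 : (0 : ℝ) ≤ (Bp.card : ℝ) := Nat.cast_nonneg _
  have h3 := Pool.Agent.N193.PS.floor_sum Bp (fun b : ℕ => x * b) (T ^ 3) (Nat.one_le_pow _ _ hT) β hβ E
    (by rw [hE]; positivity)
    (by
      intro m hm
      have := h1 m (by rw [show 128 * T ^ 9 = 128 * (T ^ 3) ^ 3 by ring]; exact hm)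
      unfold Gs at this
      simpa only [mul_assoc] using this)
    (by
      intro m hm0 hm
      have := h2 m hm0 hm
      unfold Gs at this
      simpa only [mul_assoc] using this)
  have h4 : ES Bp (fun b => ⌊x * b⌋₊) β = ∑ b ∈ Bp, e (β * ⌊x * (b : ℝ)⌋) := by
    unfold ES
    apply sum_congr rfl
    intro b _
    congr 2
    exact natCast_floor_eq_intCast_floor (by positivity)
  rw [h4]
  refine h3.trans ?_
  push_cast
  have hT9 : (1 : ℝ) ≤ (T : ℝ) ^ 9 := one_le_pow₀ hTr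
  have hT0 : (0 : ℝ) < T := by linarith
  have h5 : (128 * ((T : ℝ) ^ 3) ^ 3 + 8) * E ≤ 272 * (Bp.card : ℝ) / (T : ℝ) ^ 3 := by
    rw [hE]
    calc (128 * ((T : ℝ) ^ 3) ^ 3 + 8) * (2 * (Bp.card : ℝ) / (T : ℝ) ^ 12)
        ≤ (136 * (T : ℝ) ^ 9) * (2 * (Bp.card : ℝ) / (T : ℝ) ^ 12) := by
          apply mul_le_mul_of_nonneg_right _ (by positivity)
          have : ((T : ℝ) ^ 3) ^ 3 = (T : ℝ) ^ 9 := by ring
          rw [this]
          linarith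
      _ = _ := by field_simp; ring
  have h6 : 282 * (Bp.card : ℝ) / (T : ℝ) ^ 3 = 272 * (Bp.card : ℝ) / (T : ℝ) ^ 3 + 10 * ((Bp.card : ℝ) / (T : ℝ) ^ 3) := by ring
  rw [h6]
  linarith

end Pool.Agent.Zk40.D
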